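import Pool.Agent.MP_151d89_pr.H45.Haz

/-!
Fluxes seen from the down states and from the up states are equal.
-/

set_option autoImplicit false
open MeasureTheory Finset Filter Topology

namespace Pool.Agent.MP_151d89_pr.H45
open Pool.Agent.MP_151d89_pr.H82 Pool.Agent.MP_151d89_pr.H33 Pool.Agent.MP_151d89_pr.H67
  Pool.Agent.MP_151d89_pr.H30
open Pool.Agent.MP_151d89_pr.H30.RunAux (pt_pt)
open Pool.Agent.MP_151d89_pr.H30W (Leg al Hi Lo fl NoDesc)
open Pool.Agent.MP_151d89_pr.H27 (Rdg Vly NoRay)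
open Classical

variable {μ : Measure Conf}

theorem tend0 (hμ : Gibbs μ) {B : ℕ → Set Conf} (hB : ∀ n, MeasurableSet (B n))
    (h : ∀ᵐ f ∂μ, ∀ᶠ n in atTop, f ∉ B n) : Tendsto (fun n => μ.real (B n)) atTop (𝓝 0) := by
  have := hμ.1
  have h1 := tendsto_measure_of_ae_tendsto_indicator_of_isFiniteMeasure (μ := μ) atTop
    MeasurableSet.empty hB (h.mono fun f hf => hf.mono fun n hn => by simp [hn])
  rw [measure_empty] at h1
  exact (ENNReal.tendsto_toReal ENNReal.zero_ne_top).comp h1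

theorem hasSum_rec {p q : ℕ → ℝ} (hp : ∀ n, 0 ≤ p n) (h : ∀ n, q n = p n + q (n + 1))
    (h0 : Tendsto q atTop (𝓝 0)) : HasSum p (q 0) := by
  rw [hasSum_iff_tendsto_nat_of_nonneg hp]
  have e : ∀ n, ∑ i ∈ range n, p i = q 0 - q n := fun n => by
    induction n with
    | zero => simp
    | succ n ih => rw [sum_range_succ, ih, h n]; ring
  simpa [e] using h0.const_sub (q 0)

theorem summable_swap {a : ℕ → ℕ → ℝ} {x y : ℕ → ℝ} (ha : ∀ i j, 0 ≤ a i j)
    (hx : ∀ i, HasSum (a i) (x i)) (hy : ∀ j, HasSum (fun i => a i j) (y j)) (h : Summable x) :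
    Summable y ∧ ∑' i, x i = ∑' j, y j := by
  have h1 : Summable fun p : ℕ × ℕ => a p.1 p.2 :=
    (summable_prod_of_nonneg fun p => ha _ _).2
      ⟨fun i => (hx i).summable, by simpa only [(hx _).tsum_eq] using h⟩
  have h2 := ((summable_prod_of_nonneg (f := fun p : ℕ × ℕ => a p.2 p.1) fun p => ha _ _).1
    h1.prod_symm).2
  have h3 := Summable.tsum_comm (f := a) h1
  simp only [(hy _).tsum_eq] at h2 h3
  simp only [(hx _).tsum_eq] at h3
  exact ⟨h2, h3.symm⟩

theorem tsum_swap {a : ℕ → ℕ → ℝ} {x y : ℕ → ℝ} (ha : ∀ i j, 0 ≤ a i j)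
    (hx : ∀ i, HasSum (a i) (x i)) (hy : ∀ j, HasSum (fun i => a i j) (y j)) :
    (Summable x ↔ Summable y) ∧ ∑' i, x i = ∑' j, y j := by
  have h1 := summable_swap ha hx hy
  have h2 := summable_swap (a := fun j i => a i j) (fun _ _ => ha _ _) hy hx
  refine ⟨⟨fun h => (h1 h).1, fun h => (h2 h).1⟩, ?_⟩
  by_cases h : Summable x
  · exact (h1 h).2
  · rw [tsum_eq_zero_of_not_summable h, tsum_eq_zero_of_not_summable fun h' => h (h2 h').1]

theorem pt_dir (b : Bool) (z : ℤ × ℤ) (j : ℤ) : pt b (z + dir b) j = pt b z (j + 1) := by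
  rw [← pt_one, pt_pt, add_comm]

theorem pt_dir' (b : Bool) (z : ℤ × ℤ) (j : ℤ) : pt b (z - dir b) j = pt b z (j - 1) := by
  rw [← pt_neg_one, pt_pt]; congr 1; ring

theorem leg_succ {f : Conf} (hf : Hom f) (b : Bool) (z : ℤ × ℤ) (t : ℕ) :
    Leg b z (t + 1) f ↔ Leg b (z + dir b) t f ∧ Hi b (z + dir b) f := by
  rw [hi_iff]
  simp only [Leg, Lo, pt_dir]
  constructor
  · rintro ⟨h1, h2⟩
    have a1 := h1 1 (by omega)
    rw [Nat.cast_one, pt_one] at a1
    refine ⟨⟨fun j hj => ?_, fun j hj => ?_⟩, a1⟩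
    · have a2 := h1 (j + 1) (by omega)
      push_cast at a2
      omega
    · have a2 := h2 (j + 1) (by omega)
      push_cast at a2
      omega
  · rintro ⟨⟨h1, h2⟩, h3⟩
    refine ⟨fun j hj => ?_, fun j hj => ?_⟩
    · rcases j with _ | j
      · simp [pt_zero]
      · have a2 := h1 j (by omega)
        push_cast
        omega
    · rcases j with _ | j
      · have a2 := h2 0 (by omega)
        have a3 := step_dir hf (!b) z
        have a4 := step_dir' hf (!b) z
        have a5 := step_dir hf b (z + dir (!b))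
        have a6 := step_dir hf b (z - dir (!b))
        have e1 : z + dir (!b) + dir b = z + dir b + dir (!b) := by abel
        have e2 : z - dir (!b) + dir b = z + dir b - dir (!b) := by abel
        rw [e1] at a5
        rw [e2] at a6
        simp only [Nat.cast_zero, zero_add, pt_one, pt_zero] at a2 ⊢
        omega
      · have a2 := h2 j (by omega)
        push_cast
        omega

theorem up_succ {f : Conf} (hf : Hom f) (b : Bool) (z : ℤ × ℤ) (t : ℕ) :
    Up b z (t + 1) f ↔ Up b (z - dir b) t f ∧ Lo b (z - dir b) f := by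
  have e : ∀ j : ℕ, -(j : ℤ) - 1 = -((j + 1 : ℕ) : ℤ) := fun j => by push_cast; ring
  simp only [Up, Lo, pt_dir', e, sub_add_cancel]
  constructor
  · rintro ⟨h1, h2⟩
    have a1 := h1 1 (by omega)
    rw [Nat.cast_one, pt_neg_one] at a1
    refine ⟨⟨fun j hj => ?_, fun j hj => ?_⟩, by omega⟩
    · have a2 := h1 (j + 1) (by omega)
      omega
    · have a2 := h2 (j + 1) (by omega)
      omega
  · rintro ⟨⟨h1, h2⟩, h3⟩
    refine ⟨fun j hj => ?_, fun j hj => ?_⟩
    · rcases j with _ | j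
      · simp [pt_zero]
      · have a2 := h1 j (by omega)
        omega
    · rcases j with _ | j
      · have a2 := h2 0 (by omega)
        have a3 := step_dir hf (!b) z
        have a4 := step_dir' hf (!b) z
        have a5 := step_dir' hf b (z + dir (!b))
        have a6 := step_dir' hf b (z - dir (!b))
        have e1 : z + dir (!b) - dir b = z - dir b + dir (!b) := by abel
        have e2 : z - dir (!b) - dir b = z - dir b - dir (!b) := by abel
        rw [e1] at a5
        rw [e2] at a6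
        simp only [Nat.cast_zero, zero_add, Nat.cast_one, pt_neg_one, pt_zero, neg_zero] at a2 ⊢
        omega
      · have a2 := h2 j (by omega)
        omega

/-- reversibility for the towers descending in direction b -/
theorem w_rev (hμ : Gibbs μ) (b : Bool) (y : ℤ × ℤ) (n : ℕ) :
    μ.real {f | Leg b y n f ∧ ¬ Hi b y f} =
      μ.real {f | Up b (pt b y n) n f ∧ ¬ Lo b (pt b y n) f} := by
  have m1 : MeasurableSet {f | Leg b y n f ∧ ¬ Hi b y f} :=
    (meas_Dn b y n).inter (meas_Hi b y).compl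
  have m2 : MeasurableSet {f | Up b (pt b y n) n f ∧ ¬ Lo b (pt b y n) f} :=
    (meas_Up b _ n).inter (meas_Lo b _).compl
  obtain ⟨o1, o2, o3⟩ := tow_out (b, y, n)
  simp only at o1 o2 o3
  have i1 : ∀ j : ℕ, j ≤ n → pt b y j ∈ tow (b, y, n) := fun j hj => tow_in (b, y, n) hj
  have e1 : ∀ j : ℕ, j ≤ n → pt b (pt b y n) (-j) = pt b y (n - j : ℕ) := fun j hj => by
    rw [pt_pt, Nat.cast_sub hj, sub_eq_add_neg]
  have e2 : pt b (pt b y n) (-(n + 1 : ℕ)) = pt b y (-1) := by
    rw [pt_pt]; congr 1; push_cast; ring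
  have e3 : pt b (pt b y n) (-n) = y := by rw [pt_pt, add_neg_cancel, pt_zero]
  refine le_antisymm (mv_le hμ (tow (b, y, n)) (-2) m1 m2 fun f hf h => ?_)
    (mv_le hμ (tow (b, y, n)) 2 m2 m1 fun f hf h => ?_)
  · have h0 := (not_hi hf b y).1 h.2
    have a1 := h.1.1 n (by omega)
    refine ⟨hom_Dn hf h.1 h0, ⟨fun j hj => ?_, fun j hj => ?_⟩, ?_⟩
    · rw [mv_in _ _ (i1 n le_rfl)]
      rcases Nat.lt_or_eq_of_le hj with e | rfl
      · rw [e1 j (by omega), mv_in _ _ (i1 _ (by omega)), h.1.1 _ (by omega)]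
        omega
      · rw [e2, mv_out _ _ o1, pt_neg_one]
        omega
    · have a2 := h.1.2 (n - j) (by omega)
      rw [e1 j hj, mv_out _ _ (o3 _).1, mv_out _ _ (o3 _).2, mv_in _ _ (i1 n le_rfl)]
      omega
    · have a2 := h.1.1 (n + 1) le_rfl
      push_cast at a2
      simp only [Lo, pt_add, mv_out _ _ o2, mv_in _ _ (i1 n le_rfl)]
      omega
  · have h0 := (not_lo hf b _).1 h.2
    have a1 := h.1.1 n (by omega)
    have a0 := hom_Up hf h.1 h0
    rw [e3] at a0 a1
    have e4 : ∀ j : ℕ, j ≤ n → pt b (pt b y n) (-(n - j : ℕ)) = pt b y j := fun j hj => by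
      rw [pt_pt, Nat.cast_sub hj]; congr 1; ring
    refine ⟨a0, ⟨fun j hj => ?_, fun j hj => ?_⟩, ?_⟩
    · rw [mv_top]
      rcases Nat.lt_or_eq_of_le hj with e | rfl
      · have a2 := h.1.1 (n - j) (by omega)
        rw [e4 j (by omega)] at a2
        rw [mv_in _ _ (i1 _ (by omega))]
        omega
      · rw [pt_add] at h0
        push_cast
        rw [mv_out _ _ o2]
        omega
    · have a2 := h.1.2 (n - j) (by omega)
      rw [e4 j hj] at a2
      rw [mv_out _ _ (o3 _).1, mv_out _ _ (o3 _).2, mv_top]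
      omega
    · have a2 := h.1.1 (n + 1) le_rfl
      rw [e2] at a2
      simp only [Hi, ← pt_neg_one, mv_out _ _ o1, mv_top]
      omega

/-- the probability of the descending tower with top s and n steps -/
noncomputable def pw (μ : Measure Conf) (b : Bool) (s : ℤ × ℤ) (n : ℕ) : ℝ :=
  μ.real {f | Leg b s n f ∧ ¬ Hi b s f}

theorem hasSum_leg (hμ : Gibbs μ) (hN : NoDesc μ) (b : Bool) (z : ℤ × ℤ) (t : ℕ) :
    HasSum (fun k : ℕ => pw μ b (pt b z (-k)) (t + k)) (μ.real {f | Leg b z t f}) := by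
  have h := hasSum_rec (p := fun k : ℕ => pw μ b (pt b z (-k)) (t + k))
    (q := fun k : ℕ => μ.real {f | Leg b (pt b z (-k)) (t + k) f})
    (fun _ => measureReal_nonneg) (fun k => ?_) (tend0 hμ (fun _ => meas_Dn _ _ _) ?_)
  · simpa only [Nat.cast_zero, neg_zero, pt_zero, add_zero] using h
  · refine real_split hμ (meas_Hi b (pt b z (-k))).compl (fun _ _ => Iff.rfl) fun f hf => ?_
    have e : pt b z (-(k + 1 : ℕ)) + dir b = pt b z (-k) := by
      rw [pt_add]; congr 1; push_cast; ring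
    simp only [Set.mem_ofPred_eq, Set.mem_compl_iff, not_not, ← add_assoc, leg_succ hf, e]
  · filter_upwards [hN] with f hf
    obtain ⟨l, hl⟩ := (hf b z).2
    filter_upwards [eventually_ge_atTop l] with k hk h
    have a1 := h.1 k (by omega)
    have a2 := h.1 (k - l) (by omega)
    have e : -(k : ℤ) + (k - l) = -l := by ring
    rw [pt_pt, neg_add_cancel, pt_zero] at a1
    rw [pt_pt, Nat.cast_sub hk, e] at a2
    omega

theorem hasSum_up (hμ : Gibbs μ) (hN : NoDesc μ) (b : Bool) (z : ℤ × ℤ) (k : ℕ) :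
    HasSum (fun t : ℕ => pw μ b (pt b z (-k)) (t + k)) (μ.real {f | Up b z k f}) := by
  have h := hasSum_rec (p := fun t : ℕ => pw μ b (pt b z (-k)) (t + k))
    (q := fun t : ℕ => μ.real {f | Up b (pt b z t) (t + k) f})
    (fun _ => measureReal_nonneg) (fun t => ?_) (tend0 hμ (fun _ => meas_Up _ _ _) ?_)
  · simpa only [Nat.cast_zero, pt_zero, zero_add] using h
  · have e0 : pt b (pt b z (-k)) (t + k : ℕ) = pt b z t := by
      rw [pt_pt]; congr 1; push_cast; ring
    simp only [pw, w_rev hμ, e0]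
    refine real_split hμ (meas_Lo b (pt b z t)).compl (fun _ _ => Iff.rfl) fun f hf => ?_
    have e : pt b z (t + 1 : ℕ) - dir b = pt b z t := by
      rw [pt_sub]; congr 1; push_cast; ring
    have e' : t + 1 + k = t + k + 1 := by ring
    simp only [Set.mem_ofPred_eq, Set.mem_compl_iff, not_not, e', up_succ hf, e]
  · filter_upwards [hN] with f hf
    obtain ⟨l, hl⟩ := (hf b z).1
    filter_upwards [eventually_ge_atTop l] with t ht h
    have a1 := h.1 t (by omega)
    have a2 := h.1 (t - l) (by omega)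
    have e : (t : ℤ) + -(t - l) = l := by ring
    rw [pt_pt, add_neg_cancel, pt_zero] at a1
    rw [pt_pt, Nat.cast_sub ht, e] at a2
    omega

/-- ridge legs and valley legs count the same towers -/
theorem al'_eq (hμ : Gibbs μ) (hN : NoDesc μ) (b : Bool) (z : ℤ × ℤ) : al' μ b z = al μ b z :=
  (tsum_swap (a := fun t k : ℕ => pw μ b (pt b z (-k)) (t + k)) (fun _ _ => measureReal_nonneg)
    (hasSum_leg hμ hN b z) (hasSum_up hμ hN b z)).2.symm

theorem summable_up (hμ : Gibbs μ) (hN : NoDesc μ) (b : Bool) (z : ℤ × ℤ) :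
    (Summable fun t : ℕ => μ.real {f | Leg b z t f}) ↔
      Summable fun t : ℕ => μ.real {f | Up b z t f} :=
  (tsum_swap (a := fun t k : ℕ => pw μ b (pt b z (-k)) (t + k)) (fun _ _ => measureReal_nonneg)
    (hasSum_leg hμ hN b z) (hasSum_up hμ hN b z)).1

/-- the flux over the edge from z to z + dir b counted by long ridge legs at z -/
theorem fl_leg (hμ : Gibbs μ) (b : Bool) (z : ℤ × ℤ) :
    fl μ b (z + dir b) = ∑' t : ℕ, μ.real {f | Leg b z (t + 1) f} :=
  tsum_congr fun t => real_congr hμ fun _ hf => (leg_succ hf b z t).symm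

/-- the flux over the edge from z to z - dir b counted by long valley legs at z -/
theorem fl_up (hμ : Gibbs μ) (hN : NoDesc μ) (b : Bool) (z : ℤ × ℤ) :
    fl μ b z = ∑' k : ℕ, μ.real {f | Up b z (k + 1) f} := by
  have h := fl_leg hμ b (z - dir b)
  rw [sub_add_cancel] at h
  rw [h]
  refine (tsum_swap (a := fun t k : ℕ => pw μ b (pt b z (-(k + 1 : ℕ))) (t + (k + 1)))
    (fun _ _ => measureReal_nonneg) (fun t => ?_) fun k => hasSum_up hμ hN b z (k + 1)).2
  have h1 := hasSum_leg hμ hN b (z - dir b) (t + 1)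
  have e : ∀ k : ℕ, pt b (z - dir b) (-k) = pt b z (-(k + 1 : ℕ)) := fun k => by
    rw [pt_dir']; congr 1; push_cast; ring
  have e' : ∀ k : ℕ, t + 1 + k = t + (k + 1) := fun k => by ring
  simpa only [e, e'] using h1

theorem hasSum_rdg (hμ : Gibbs μ) (hN : NoRay μ) (b : Bool) (x : ℤ × ℤ) (l : ℕ) :
    HasSum (fun k : ℕ => μ.real {f | Av (-1) (b, x, l + k) f}) (μ.real {f | Rdg b x l f}) := by
  refine hasSum_rec (q := fun k : ℕ => μ.real {f | Rdg b x (l + k) f})
    (fun _ => measureReal_nonneg) (fun k => q_succ hμ b x (l + k))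
    (tend0 hμ (fun _ => meas_Rdg _ _ _) ?_)
  filter_upwards [hN] with f hf
  obtain ⟨n, hn⟩ := (hf b x).1
  filter_upwards [eventually_ge_atTop n] with k hk h
  exact hn fun t ht => h.1 t (by omega)

theorem hasSum_vly (hμ : Gibbs μ) (hN : NoRay μ) (b : Bool) (y : ℤ × ℤ) (l : ℕ) :
    HasSum (fun k : ℕ => μ.real {f | Av (-1) (b, pt b y (-(l + k : ℕ)), l + k) f})
      (μ.real {f | Vly b y l f}) := by
  simp only [p_rev hμ]
  refine hasSum_rec (q := fun k : ℕ => μ.real {f | Vly b y (l + k) f})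
    (fun _ => measureReal_nonneg) (fun k => q'_succ hμ b y (l + k))
    (tend0 hμ (fun _ => meas_Vly _ _ _) ?_)
  filter_upwards [hN] with f hf
  obtain ⟨n, hn⟩ := (hf b y).2
  filter_upwards [eventually_ge_atTop n] with k hk h
  exact hn (run_back fun t ht => vly_run h.1 (by omega))

/-- towers containing the segment from z to pt b z d, counted from both sides -/
theorem flux_eq (hμ : Gibbs μ) (hN : NoRay μ) (b : Bool) (z : ℤ × ℤ) (d : ℕ) :
    ((Summable fun l : ℕ => μ.real {f | Rdg b (pt b z (-l)) (l + d) f}) ↔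
      Summable fun k : ℕ => μ.real {f | Vly b (pt b z (k + d : ℕ)) (k + d) f}) ∧
    ∑' l : ℕ, μ.real {f | Rdg b (pt b z (-l)) (l + d) f} =
      ∑' k : ℕ, μ.real {f | Vly b (pt b z (k + d : ℕ)) (k + d) f} := by
  refine tsum_swap (a := fun l k : ℕ => μ.real {f | Av (-1) (b, pt b z (-l), l + d + k) f})
    (fun _ _ => measureReal_nonneg) (fun l => hasSum_rdg hμ hN b _ (l + d)) fun k => ?_
  have h := hasSum_vly hμ hN b (pt b z (k + d : ℕ)) (k + d)
  have e : ∀ l : ℕ, pt b (pt b z (k + d : ℕ)) (-(k + d + l : ℕ)) = pt b z (-l) := fun l => by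
    rw [pt_pt]; congr 1; push_cast; ring
  have e' : ∀ l : ℕ, k + d + l = l + d + k := fun l => by ring
  simp only [e] at h
  simpa only [e'] using h

/-- AH0, mirror, in terms of al -/
theorem ah0m (hμ : Gibbs μ) (hT : Triv μ) (hN : NoDesc μ) (b : Bool) (z : ℤ × ℤ) :
    μ.real {f | ¬ Lo b z f} * al μ b z ≤ 1 := al'_eq hμ hN b z ▸ ah0' hμ hT b z

/-- AH, mirror, in terms of al -/
theorem ahm (hμ : Gibbs μ) (hT : Triv μ) (hN : NoDesc μ) (b b' : Bool) (y : ℤ × ℤ) (l : ℕ) :
    μ.real {f | Vly b y (l + 1) f} * al μ b' (pt b y (-(l + 1 : ℕ))) ≤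
      μ.real {f | Av (-1) (b, pt b y (-l), l) f} := by
  rw [p_rev hμ, ← al'_eq hμ hN]
  exact ah' hμ hT b b' y l

/-- K3, mirror, in terms of al -/
theorem k3m (hμ : Gibbs μ) (hT : Triv μ) (hN : NoDesc μ) (b : Bool) (y : ℤ × ℤ) (l : ℕ) :
    μ.real {f | Run b (pt b y (-(l + 1 : ℕ))) (l + 1) f} * al μ b (pt b y (-(l + 1 : ℕ))) ≤
      μ.real {f | Run b (pt b y (-l)) l f ∧ Hi b (pt b y (-l)) f} :=
  al'_eq hμ hN b _ ▸ k3' hμ hT b y l

/-- DUAL, mirror, in terms of al -/
theorem dualm (hμ : Gibbs μ) (hT : Triv μ) (hN : NoDesc μ) (b b' : Bool) (z : ℤ × ℤ)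
    (I : Finset ℕ) :
    (∑ l ∈ I, μ.real {f | Vly b (pt b z (l + 1 : ℕ)) (l + 1) f}) * al μ b' z ≤ 1 :=
  al'_eq hμ hN b' z ▸ dual' hμ hT b b' z I

end Pool.Agent.MP_151d89_pr.H45
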