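import Pool.Agent.MP_151d89_pr.H45.Pin

/-!
Local injections: a family of local modifications with distinct images bounds a sum of
probabilities.
-/

set_option autoImplicit false
open MeasureTheory Finset Filter

namespace Pool.Agent.MP_151d89_pr.H45
open Pool.Agent.MP_151d89_pr.H82 Pool.Agent.MP_151d89_pr.H33 Pool.Agent.MP_151d89_pr.H67
  Pool.Agent.MP_151d89_pr.H30 Pool.Agent.MP_151d89_pr.H30.RunAux
open Classical

variable {μ : Measure Conf}

theorem real_av (hμ : Gibbs μ) (Λ : Finset (ℤ × ℤ)) {E : Set Conf} (hE : MeasurableSet E) :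
    μ.real E = ∫ g, ((FI Λ g E).card : ℝ) / (FS Λ g).card ∂μ := by
  have := hμ.1
  have h := int_av hμ Λ (φ := E.indicator fun _ => (1 : ℝ)) (B := 1)
    (measurable_const.indicator hE) fun f => by
      rw [abs_of_nonneg (ind_bd E f).1]
      exact (ind_bd E f).2
  rw [integral_indicator hE] at h
  simp only [integral_const, smul_eq_mul, mul_one, measureReal_restrict_apply_univ, av_ind] at h
  exact h.symm

theorem int_FI (hμ : Gibbs μ) (Λ : Finset (ℤ × ℤ)) {E : Set Conf} (hE : MeasurableSet E) :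
    Integrable (fun g => ((FI Λ g E).card : ℝ) / (FS Λ g).card) μ := by
  have := hμ.1
  have h := intg (μ := μ) (meas_av Λ (φ := E.indicator fun _ => (1 : ℝ))
    (measurable_const.indicator hE))
    (av_abs (B := 1) fun f => by
      rw [abs_of_nonneg (ind_bd E f).1]
      exact (ind_bd E f).2)
  simpa only [← av_ind] using h

/-- comparison of sums of probabilities by counting fillings -/
theorem sum_le_of_card (hμ : Gibbs μ) (Λ : Finset (ℤ × ℤ)) {ι κ : Type} (I : Finset ι)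
    (J : Finset κ) {E : ι → Set Conf} {F : κ → Set Conf} (hE : ∀ i ∈ I, MeasurableSet (E i))
    (hF : ∀ j ∈ J, MeasurableSet (F j))
    (h : ∀ g, Hom g → ∑ i ∈ I, (FI Λ g (E i)).card ≤ ∑ j ∈ J, (FI Λ g (F j)).card) :
    ∑ i ∈ I, μ.real (E i) ≤ ∑ j ∈ J, μ.real (F j) := by
  rw [sum_congr rfl fun i hi => real_av hμ Λ (hE i hi),
    sum_congr rfl fun j hj => real_av hμ Λ (hF j hj),
    ← integral_finsetSum _ fun i hi => int_FI hμ Λ (hE i hi),
    ← integral_finsetSum _ fun j hj => int_FI hμ Λ (hF j hj)]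
  refine integral_mono_ae (integrable_finsetSum _ fun i hi => int_FI hμ Λ (hE i hi))
    (integrable_finsetSum _ fun j hj => int_FI hμ Λ (hF j hj)) ?_
  filter_upwards [hμ.2.1] with g hg
  rw [← sum_div, ← sum_div]
  exact div_le_div_of_nonneg_right (by exact_mod_cast h g hg) (Nat.cast_nonneg _)

/-- a family of local modifications which is injective in the pair (index, function) -/
theorem inj_sum (hμ : Gibbs μ) (Λ : Finset (ℤ × ℤ)) {ι : Type} (I : Finset ι)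
    (Φ : ι → Conf → Conf) {E : ι → Set Conf} {F : Set Conf} (hE : ∀ i ∈ I, MeasurableSet (E i))
    (hF : MeasurableSet F)
    (h1 : ∀ i ∈ I, ∀ f, Hom f → f ∈ E i → Hom (Φ i f) ∧ Φ i f ∈ F ∧ ∀ y, y ∉ Λ → Φ i f y = f y)
    (h2 : ∀ i ∈ I, ∀ j ∈ I, ∀ f g, Hom f → Hom g → f ∈ E i → g ∈ E j → Φ i f = Φ j g →
      i = j ∧ f = g) : ∑ i ∈ I, μ.real (E i) ≤ μ.real F := by
  have h := sum_le_of_card hμ Λ I ({()} : Finset Unit) (F := fun _ => F) hE (fun _ _ => hF)
    fun g _ => ?_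
  · rwa [sum_singleton] at h
  rw [sum_singleton, ← card_sigma]
  refine card_le_card_of_injOn (fun p => Φ p.1 p.2) (fun p hp => ?_) fun p hp q hq e => ?_
  · obtain ⟨a1, a2⟩ := mem_sigma.1 (mem_coe.1 hp)
    obtain ⟨a3, a4⟩ := mem_FI.1 a2
    obtain ⟨a5, a6⟩ := mem_FS.1 a3
    obtain ⟨b1, b2, b3⟩ := h1 _ a1 _ a5 a4
    exact mem_coe.2 (mem_FI.2 ⟨mem_FS.2 ⟨b1, fun x hx => (b3 x hx).trans (a6 x hx)⟩, b2⟩)
  · obtain ⟨a1, a2⟩ := mem_sigma.1 (mem_coe.1 hp)
    obtain ⟨b1, b2⟩ := mem_sigma.1 (mem_coe.1 hq)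
    obtain ⟨c1, c2⟩ := h2 _ a1 _ b1 _ _ (mem_FS.1 (mem_FI.1 a2).1).1 (mem_FS.1 (mem_FI.1 b2).1).1
      (mem_FI.1 a2).2 (mem_FI.1 b2).2 e
    obtain ⟨i, f⟩ := p
    obtain ⟨j, f'⟩ := q
    simp only at c1 c2
    subst c1
    subst c2
    rfl

/-- adding c on the finite set A -/
def mv (A : Finset (ℤ × ℤ)) (c : ℤ) (f : Conf) : Conf := fun y => if y ∈ A then f y + c else f y

theorem mv_in {A : Finset (ℤ × ℤ)} (c : ℤ) (f : Conf) {y : ℤ × ℤ} (h : y ∈ A) :
    mv A c f y = f y + c := if_pos h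

theorem mv_out {A : Finset (ℤ × ℤ)} (c : ℤ) (f : Conf) {y : ℤ × ℤ} (h : y ∉ A) :
    mv A c f y = f y := if_neg h

theorem mv_inj (A : Finset (ℤ × ℤ)) (c : ℤ) {f g : Conf} (h : mv A c f = mv A c g) : f = g := by
  funext y
  have := congrFun h y
  by_cases hy : y ∈ A
  · rw [mv_in c f hy, mv_in c g hy] at this
    omega
  · rwa [mv_out c f hy, mv_out c g hy] at this

/-- a set all of whose outer neighbours are lower (s = -1) or higher (s = 1) can be moved -/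
theorem hom_mv {A : Finset (ℤ × ℤ)} {s : ℤ} (hs : s = 1 ∨ s = -1) {f : Conf} (hf : Hom f)
    (h : ∀ x ∈ A, ∀ y, y ∉ A → |x.1 - y.1| + |x.2 - y.2| = 1 → f y = f x + s) :
    Hom (mv A (2 * s) f) := by
  intro x y hxy
  have h0 := hf x y hxy
  by_cases hx : x ∈ A <;> by_cases hy : y ∈ A
  · rw [mv_in _ f hx, mv_in _ f hy]; simpa using h0
  · rw [mv_in _ f hx, mv_out _ f hy, h x hx y hy hxy, abs_eq (by norm_num)]; omega
  · rw [mv_out _ f hx, mv_in _ f hy,
      h y hy x hx (by rw [abs_sub_comm y.1, abs_sub_comm y.2]; exact hxy), abs_eq (by norm_num)]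
    omega
  · rw [mv_out _ f hx, mv_out _ f hy]; exact h0

/-- a family of moves whose images determine the index -/
theorem mv_sum (hμ : Gibbs μ) {ι : Type} (I : Finset ι) (A : ι → Finset (ℤ × ℤ)) (c : ι → ℤ)
    {E : ι → Set Conf} {F : Set Conf} (hE : ∀ i ∈ I, MeasurableSet (E i)) (hF : MeasurableSet F)
    (h1 : ∀ i ∈ I, ∀ f, Hom f → f ∈ E i → Hom (mv (A i) (c i) f) ∧ mv (A i) (c i) f ∈ F)
    (h2 : ∀ i ∈ I, ∀ j ∈ I, ∀ f g, Hom f → Hom g → f ∈ E i → g ∈ E j →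
      mv (A i) (c i) f = mv (A j) (c j) g → i = j) : ∑ i ∈ I, μ.real (E i) ≤ μ.real F := by
  refine inj_sum hμ (I.biUnion A) I (fun i => mv (A i) (c i)) hE hF
    (fun i hi f hf h => ⟨(h1 i hi f hf h).1, (h1 i hi f hf h).2, fun y hy => mv_out _ _ fun e =>
      hy (mem_biUnion.2 ⟨i, hi, e⟩)⟩) fun i hi j hj f g hf hg a b e => ?_
  obtain rfl := h2 i hi j hj f g hf hg a b e
  exact ⟨rfl, mv_inj _ _ e⟩

/-- a single move -/
theorem mv_le (hμ : Gibbs μ) (A : Finset (ℤ × ℤ)) (c : ℤ) {E F : Set Conf} (hE : MeasurableSet E)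
    (hF : MeasurableSet F) (h : ∀ f, Hom f → f ∈ E → Hom (mv A c f) ∧ mv A c f ∈ F) :
    μ.real E ≤ μ.real F := by
  have := mv_sum hμ ({()} : Finset Unit) (fun _ => A) (fun _ => c) (E := fun _ => E)
    (fun _ _ => hE) hF (fun _ _ => h) fun _ _ _ _ _ _ _ _ _ _ _ => rfl
  rwa [sum_singleton] at this

/-- events which are disjoint on homomorphisms -/
theorem disj_sum (hμ : Gibbs μ) {ι : Type} (I : Finset ι) {E : ι → Set Conf} {F : Set Conf}
    (hE : ∀ i ∈ I, MeasurableSet (E i)) (hF : MeasurableSet F)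
    (h1 : ∀ i ∈ I, ∀ f, Hom f → f ∈ E i → f ∈ F)
    (h2 : ∀ i ∈ I, ∀ j ∈ I, ∀ f, Hom f → f ∈ E i → f ∈ E j → i = j) :
    ∑ i ∈ I, μ.real (E i) ≤ μ.real F :=
  inj_sum hμ ∅ I (fun _ f => f) hE hF (fun i hi f hf h => ⟨hf, h1 i hi f hf h, fun _ _ => rfl⟩)
    fun i hi j hj f _ hf _ a b e => ⟨h2 i hi j hj f hf a (e ▸ b), e⟩

/-- monotonicity on homomorphisms -/
theorem real_mono (hμ : Gibbs μ) {E F : Set Conf} (h : ∀ f, Hom f → f ∈ E → f ∈ F) :
    μ.real E ≤ μ.real F := by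
  have := hμ.1
  exact ENNReal.toReal_mono (measure_ne_top _ _) (measure_mono_ae (hμ.2.1.mono h))

/-- covering on homomorphisms -/
theorem real_cover (hμ : Gibbs μ) {ι : Type} (I : Finset ι) {E : Set Conf} {F : ι → Set Conf}
    (h : ∀ f, Hom f → f ∈ E → ∃ i ∈ I, f ∈ F i) : μ.real E ≤ ∑ i ∈ I, μ.real (F i) := by
  have := hμ.1
  exact (real_mono hμ fun f hf e => Set.mem_iUnion₂.2 (by simpa using h f hf e)).trans
    (measureReal_biUnion_finset_le I F)

end Pool.Agent.MP_151d89_pr.H45
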