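import Pool.Agent.MP_151d89_pr.H45.Move
import Pool.Agent.MP_151d89_pr.H30W.Spec

/-!
Ridge and valley legs of towers descending in an axis direction, and the general flip inequality.
-/

set_option autoImplicit false
open MeasureTheory Finset Filter

namespace Pool.Agent.MP_151d89_pr.H45
open Pool.Agent.MP_151d89_pr.H82 Pool.Agent.MP_151d89_pr.H33 Pool.Agent.MP_151d89_pr.H67
  Pool.Agent.MP_151d89_pr.H30 Pool.Agent.MP_151d89_pr.H30.RunAux
open Pool.Agent.MP_151d89_pr.H30W (Leg al Hi Lo fl NoDesc)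
open Classical

variable {μ : Measure Conf}

/-- a valley leg ascending from z against direction b -/
def Up (b : Bool) (z : ℤ × ℤ) (t : ℕ) (f : Conf) : Prop :=
  (∀ j : ℕ, j ≤ t + 1 → f (pt b z (-j)) = f z + j) ∧ ∀ j : ℕ, j ≤ t →
    f (pt b z (-j) + dir (!b)) = f z + j + 1 ∧ f (pt b z (-j) - dir (!b)) = f z + j + 1

/-- the expected number of valley legs from z -/
noncomputable def al' (μ : Measure Conf) (b : Bool) (z : ℤ × ℤ) : ℝ :=
  ∑' t : ℕ, μ.real {f | Up b z t f}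

theorem meas_eq' (x y : ℤ × ℤ) (c : ℤ) : Measurable fun f : Conf => f x = f y - c := by
  simpa only [sub_eq_add_neg] using meas_eq x y (-c)

theorem meas_Dn (b : Bool) (z : ℤ × ℤ) (t : ℕ) : MeasurableSet {f | Leg b z t f} := by
  unfold Leg
  simp only [sub_sub]
  exact measurableSet_setOfPred.2 ((Measurable.forall fun _ => Measurable.imp measurable_const
    (meas_eq' _ _ _)).and (Measurable.forall fun _ => Measurable.imp measurable_const
      ((meas_eq' _ _ _).and (meas_eq' _ _ _))))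

theorem meas_Up (b : Bool) (z : ℤ × ℤ) (t : ℕ) : MeasurableSet {f | Up b z t f} := by
  unfold Up
  simp only [add_assoc]
  exact measurableSet_setOfPred.2 ((Measurable.forall fun _ => Measurable.imp measurable_const
    (meas_eq _ _ _)).and (Measurable.forall fun _ => Measurable.imp measurable_const
      ((meas_eq _ _ _).and (meas_eq _ _ _))))

theorem al_nonneg (μ : Measure Conf) (b : Bool) (z : ℤ × ℤ) : 0 ≤ al μ b z :=
  tsum_nonneg fun _ => measureReal_nonneg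

theorem al'_nonneg (μ : Measure Conf) (b : Bool) (z : ℤ × ℤ) : 0 ≤ al' μ b z :=
  tsum_nonneg fun _ => measureReal_nonneg

theorem pt_add (b : Bool) (x : ℤ × ℤ) (t : ℤ) : pt b x t + dir b = pt b x (t + 1) := by
  simp only [pt, add_smul, one_smul, add_assoc]

theorem pt_sub (b : Bool) (x : ℤ × ℤ) (t : ℤ) : pt b x t - dir b = pt b x (t - 1) := by
  simp only [pt, sub_smul, one_smul, add_sub_assoc]

theorem pt_one (b : Bool) (x : ℤ × ℤ) : pt b x 1 = x + dir b := by simp [pt]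

theorem pt_neg_one (b : Bool) (x : ℤ × ℤ) : pt b x (-1) = x - dir b := by
  simp [pt, sub_eq_add_neg]

theorem pt_inj {b : Bool} {x : ℤ × ℤ} {s t : ℤ} (h : pt b x s = pt b x t) : s = t := by
  cases b <;> simp only [pt_true, pt_false, Prod.ext_iff] at h <;> omega

/-- the four neighbours of a site -/
theorem nb4 (b : Bool) {x y : ℤ × ℤ} (h : |x.1 - y.1| + |x.2 - y.2| = 1) :
    y = x + dir b ∨ y = x - dir b ∨ y = x + dir (!b) ∨ y = x - dir (!b) := by
  cases b <;> simp only [Bool.not_true, Bool.not_false, dir, Prod.ext_iff, Prod.fst_add,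
    Prod.snd_add, Prod.fst_sub, Prod.snd_sub, Int.abs_eq_natAbs] at h ⊢ <;> omega

/-- heights along a line and next to it -/
theorem lip_pt {f : Conf} (hf : Hom f) (b : Bool) (x : ℤ × ℤ) (s t : ℤ) :
    f (pt b x s) - f (pt b x t) ≤ |s - t| ∧
    f (pt b x s + dir (!b)) - f (pt b x t) ≤ |s - t| + 1 ∧
    f (pt b x s - dir (!b)) - f (pt b x t) ≤ |s - t| + 1 ∧
    f (pt b x t) - f (pt b x s + dir (!b)) ≤ |s - t| + 1 ∧
    f (pt b x t) - f (pt b x s - dir (!b)) ≤ |s - t| + 1 := by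
  have h1 := (lip hf (pt b x s) (pt b x t)).1
  have h2 := (lip hf (pt b x s + dir (!b)) (pt b x t)).1
  have h3 := (lip hf (pt b x s - dir (!b)) (pt b x t)).1
  have h4 := (lip hf (pt b x t) (pt b x s + dir (!b))).1
  have h5 := (lip hf (pt b x t) (pt b x s - dir (!b))).1
  generalize f (pt b x s) = a at *
  generalize f (pt b x t) = a' at *
  generalize f (pt b x s + dir (!b)) = c at *
  generalize f (pt b x s - dir (!b)) = c' at *
  cases b <;> simp only [pt_true, pt_false, Bool.not_true, Bool.not_false, dir, Prod.fst_add,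
    Prod.snd_add, Prod.fst_sub, Prod.snd_sub, Int.abs_eq_natAbs] at * <;> omega

/-- the steps along an edge -/
theorem step_dir {f : Conf} (hf : Hom f) (b : Bool) (x : ℤ × ℤ) :
    f (x + dir b) = f x + 1 ∨ f (x + dir b) = f x - 1 := by
  have h := hf (x + dir b) x (by cases b <;> simp [dir])
  rw [abs_eq (by norm_num)] at h
  omega

theorem step_dir' {f : Conf} (hf : Hom f) (b : Bool) (x : ℤ × ℤ) :
    f (x - dir b) = f x + 1 ∨ f (x - dir b) = f x - 1 := by
  have h := step_dir hf b (x - dir b)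
  rw [sub_add_cancel] at h
  omega

theorem dec_Dn (b : Bool) (z : ℤ × ℤ) (t : ℕ) : Dec z {f | Leg b z t f} := by
  intro u v _ hv h1 h2
  refine ⟨fun j hj => ?_, fun j hj => ?_⟩
  · have a1 := (lip_pt hv b z 0 j).1
    have a2 := h2 (pt b z j)
    rw [h1.1 j hj] at a2
    rw [pt_zero, Int.abs_eq_natAbs] at a1
    omega
  · obtain ⟨-, -, -, a1, a1'⟩ := lip_pt hv b z j 0
    have a2 := h2 (pt b z j + dir (!b))
    have a3 := h2 (pt b z j - dir (!b))
    rw [(h1.2 j hj).1] at a2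
    rw [(h1.2 j hj).2] at a3
    rw [pt_zero, Int.abs_eq_natAbs] at a1 a1'
    omega

theorem inc_Up (b : Bool) (z : ℤ × ℤ) (t : ℕ) : Inc z {f | Up b z t f} := by
  intro u v _ hv h1 h2
  refine ⟨fun j hj => ?_, fun j hj => ?_⟩
  · have a1 := (lip_pt hv b z (-j) 0).1
    have a2 := h2 (pt b z (-j))
    rw [h1.1 j hj] at a2
    rw [pt_zero, Int.abs_eq_natAbs] at a1
    omega
  · obtain ⟨-, a1, a1', -, -⟩ := lip_pt hv b z (-j) 0
    have a2 := h2 (pt b z (-j) + dir (!b))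
    have a3 := h2 (pt b z (-j) - dir (!b))
    rw [(h1.2 j hj).1] at a2
    rw [(h1.2 j hj).2] at a3
    rw [pt_zero, Int.abs_eq_natAbs] at a1 a1'
    omega

/-- lowering a ridge leg whose top is a descent on the other side -/
theorem hom_Dn {b : Bool} {z : ℤ × ℤ} {t : ℕ} {f : Conf} (hf : Hom f) (h : Leg b z t f)
    (h0 : f (z - dir b) = f z - 1) : Hom (mv (tow (b, z, t)) (-2) f) := by
  refine hom_mv (s := -1) (Or.inr rfl) hf fun x hx y hy hxy => ?_
  obtain ⟨j, hj, rfl⟩ := mem_tow.1 hx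
  simp only at hj hxy ⊢
  have a0 := h.1 j (by omega)
  rcases nb4 b hxy with rfl | rfl | rfl | rfl
  · have a1 := h.1 (j + 1) (by omega)
    rw [pt_add]
    push_cast at a1
    omega
  · rcases Nat.eq_zero_or_pos j with rfl | hp
    · simpa [pt_zero, sub_eq_add_neg] using h0
    · refine absurd (mem_tow.2 ⟨j - 1, by simp only; omega, ?_⟩) hy
      rw [pt_sub, Nat.cast_sub hp, Nat.cast_one]
  · have := (h.2 j hj).1
    omega
  · have := (h.2 j hj).2
    omega

theorem mem_towUp {b : Bool} {z y : ℤ × ℤ} {t : ℕ} :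
    y ∈ tow (b, pt b z (-t), t) ↔ ∃ j : ℕ, j ≤ t ∧ pt b z (-j) = y := by
  rw [mem_tow]
  simp only [pt_pt]
  constructor
  · rintro ⟨j, hj, rfl⟩
    exact ⟨t - j, by omega, by rw [Nat.cast_sub hj]; congr 1; ring⟩
  · rintro ⟨j, hj, rfl⟩
    exact ⟨t - j, by omega, by rw [Nat.cast_sub hj]; congr 1; ring⟩

/-- raising a valley leg whose bottom is an ascent on the other side -/
theorem hom_Up {b : Bool} {z : ℤ × ℤ} {t : ℕ} {f : Conf} (hf : Hom f) (h : Up b z t f)
    (h0 : f (z + dir b) = f z + 1) : Hom (mv (tow (b, pt b z (-t), t)) 2 f) := by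
  refine hom_mv (s := 1) (Or.inl rfl) hf fun x hx y hy hxy => ?_
  obtain ⟨j, hj, rfl⟩ := mem_towUp.1 hx
  have a0 := h.1 j (by omega)
  rcases nb4 b hxy with rfl | rfl | rfl | rfl
  · rcases Nat.eq_zero_or_pos j with rfl | hp
    · simpa [pt_zero] using h0
    · refine absurd (mem_towUp.2 ⟨j - 1, by omega, ?_⟩) hy
      rw [pt_add, Nat.cast_sub hp, Nat.cast_one]
      congr 1
      ring
  · have a1 := h.1 (j + 1) (by omega)
    have e : (-(j : ℤ) - 1) = -((j + 1 : ℕ) : ℤ) := by push_cast; ring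
    rw [pt_sub, e]
    push_cast at a1 ⊢
    omega
  · have := (h.2 j hj).1
    omega
  · have := (h.2 j hj).2
    omega

/-- two different ridge legs have different images -/
theorem inj_Dn {b : Bool} {z : ℤ × ℤ} {s t : ℕ} {f g : Conf} (hf : Leg b z s f) (hg : Leg b z t g)
    (e : mv (tow (b, z, s)) (-2) f = mv (tow (b, z, t)) (-2) g) : s = t := by
  have key : ∀ {s t : ℕ} {f g : Conf}, Leg b z s f → Leg b z t g →
      mv (tow (b, z, s)) (-2) f = mv (tow (b, z, t)) (-2) g → ¬ s < t := by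
    intro s t f g hf hg e h
    have e1 := congrFun e (pt b z s)
    have e2 := congrFun e (pt b z (s + 1 : ℕ))
    rw [mv_in _ _ (mem_tow.2 ⟨s, le_rfl, rfl⟩), mv_in _ _ (mem_tow.2 ⟨s, h.le, rfl⟩),
      hf.1 s (by omega), hg.1 s (by omega)] at e1
    rw [mv_out, mv_in (A := tow (b, z, t)) _ _ (mem_tow.2 ⟨s + 1, h, rfl⟩),
      hf.1 (s + 1) (by omega),
      hg.1 (s + 1) (by omega)] at e2
    · omega
    · intro hh
      obtain ⟨j, hj, e3⟩ := mem_tow.1 hh
      have := pt_inj e3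
      simp only at hj
      omega
  have h1 := key hf hg e
  have h2 := key hg hf e.symm
  omega

theorem inj_Up {b : Bool} {z : ℤ × ℤ} {s t : ℕ} {f g : Conf} (hf : Up b z s f) (hg : Up b z t g)
    (e : mv (tow (b, pt b z (-s), s)) 2 f = mv (tow (b, pt b z (-t), t)) 2 g) : s = t := by
  have key : ∀ {s t : ℕ} {f g : Conf}, Up b z s f → Up b z t g →
      mv (tow (b, pt b z (-s), s)) 2 f = mv (tow (b, pt b z (-t), t)) 2 g → ¬ s < t := by
    intro s t f g hf hg e h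
    have e1 := congrFun e (pt b z (-s))
    have e2 := congrFun e (pt b z (-(s + 1 : ℕ)))
    rw [mv_in _ _ (mem_towUp.2 ⟨s, le_rfl, rfl⟩), mv_in _ _ (mem_towUp.2 ⟨s, h.le, rfl⟩),
      hf.1 s (by omega), hg.1 s (by omega)] at e1
    rw [mv_out, mv_in _ _ (mem_towUp.2 ⟨s + 1, h, rfl⟩), hf.1 (s + 1) (by omega),
      hg.1 (s + 1) (by omega)] at e2
    · omega
    · intro hh
      obtain ⟨j, hj, e3⟩ := mem_towUp.1 hh
      have := pt_inj e3
      omega
  have h1 := key hf hg e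
  have h2 := key hg hf e.symm
  omega

theorem mul_tsum_le {a c : ℝ} {p : ℕ → ℝ} (ha : 0 ≤ a) (hp : ∀ t, 0 ≤ p t)
    (h : ∀ T, a * ∑ t ∈ range T, p t ≤ c) : a * ∑' t, p t ≤ c := by
  rw [← tsum_mul_left]
  exact Real.tsum_le_of_sum_range_le (fun t => mul_nonneg ha (hp t)) fun T => by
    rw [← mul_sum]; exact h T

/-- the flip inequality without the correlation inequality, any set of lengths -/
theorem flipDn (hμ : Gibbs μ) {b : Bool} {z : ℤ × ℤ} {Q Q' : Set Conf} (hQ : MeasurableSet Q)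
    (hQ' : MeasurableSet Q') (I : Finset ℕ)
    (h0 : ∀ f, Hom f → f ∈ Q → f (z - dir b) = f z - 1)
    (h1 : ∀ t ∈ I, ∀ f, Hom f → f ∈ Q → Leg b z t f → mv (tow (b, z, t)) (-2) f ∈ Q') :
    ∑ t ∈ I, μ.real (Q ∩ {f | Leg b z t f}) ≤ μ.real Q' :=
  mv_sum hμ I (fun t => tow (b, z, t)) (fun _ => -2) (fun _ _ => hQ.inter (meas_Dn _ _ _)) hQ'
    (fun t ht f hf h => ⟨hom_Dn hf h.2 (h0 f hf h.1), h1 t ht f hf h.1 h.2⟩)
    fun _ _ _ _ _ _ _ _ a c e => inj_Dn a.2 c.2 e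

theorem flipUp (hμ : Gibbs μ) {b : Bool} {z : ℤ × ℤ} {Q Q' : Set Conf} (hQ : MeasurableSet Q)
    (hQ' : MeasurableSet Q') (I : Finset ℕ)
    (h0 : ∀ f, Hom f → f ∈ Q → f (z + dir b) = f z + 1)
    (h1 : ∀ t ∈ I, ∀ f, Hom f → f ∈ Q → Up b z t f →
      mv (tow (b, pt b z (-t), t)) 2 f ∈ Q') :
    ∑ t ∈ I, μ.real (Q ∩ {f | Up b z t f}) ≤ μ.real Q' :=
  mv_sum hμ I (fun t => tow (b, pt b z (-t), t)) (fun _ => 2)
    (fun _ _ => hQ.inter (meas_Up _ _ _)) hQ'
    (fun t ht f hf h => ⟨hom_Up hf h.2 (h0 f hf h.1), h1 t ht f hf h.1 h.2⟩)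
    fun _ _ _ _ _ _ _ _ a c e => inj_Up a.2 c.2 e

/-- the general flip inequality for ridge legs, any finite set of lengths -/
theorem ahDn_sum (hμ : Gibbs μ) (hT : Triv μ) {b : Bool} {z : ℤ × ℤ} {Q Q' : Set Conf}
    (hQ : MeasurableSet Q) (hQ' : MeasurableSet Q') (hd : Dec z Q) (I : Finset ℕ)
    (h0 : ∀ f, Hom f → f ∈ Q → f (z - dir b) = f z - 1)
    (h1 : ∀ t ∈ I, ∀ f, Hom f → f ∈ Q → Leg b z t f → mv (tow (b, z, t)) (-2) f ∈ Q') :
    μ.real Q * ∑ t ∈ I, μ.real {f | Leg b z t f} ≤ μ.real Q' := by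
  rw [mul_sum]
  exact (sum_le_sum fun t _ => paDec hμ hT hQ (meas_Dn b z t) hd (dec_Dn b z t)).trans
    (flipDn hμ hQ hQ' I h0 h1)

/-- the general flip inequality for valley legs, any finite set of lengths -/
theorem ahUp_sum (hμ : Gibbs μ) (hT : Triv μ) {b : Bool} {z : ℤ × ℤ} {Q Q' : Set Conf}
    (hQ : MeasurableSet Q) (hQ' : MeasurableSet Q') (hd : Inc z Q) (I : Finset ℕ)
    (h0 : ∀ f, Hom f → f ∈ Q → f (z + dir b) = f z + 1)
    (h1 : ∀ t ∈ I, ∀ f, Hom f → f ∈ Q → Up b z t f →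
      mv (tow (b, pt b z (-t), t)) 2 f ∈ Q') :
    μ.real Q * ∑ t ∈ I, μ.real {f | Up b z t f} ≤ μ.real Q' := by
  rw [mul_sum]
  exact (sum_le_sum fun t _ => paInc hμ hT hQ (meas_Up b z t) hd (inc_Up b z t)).trans
    (flipUp hμ hQ hQ' I h0 h1)

/-- the general flip inequality for ridge legs -/
theorem ahDn (hμ : Gibbs μ) (hT : Triv μ) {b : Bool} {z : ℤ × ℤ} {Q Q' : Set Conf}
    (hQ : MeasurableSet Q) (hQ' : MeasurableSet Q') (hd : Dec z Q)
    (h0 : ∀ f, Hom f → f ∈ Q → f (z - dir b) = f z - 1)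
    (h1 : ∀ t f, Hom f → f ∈ Q → Leg b z t f → mv (tow (b, z, t)) (-2) f ∈ Q') :
    μ.real Q * al μ b z ≤ μ.real Q' :=
  mul_tsum_le measureReal_nonneg (fun _ => measureReal_nonneg) fun T =>
    ahDn_sum hμ hT hQ hQ' hd (range T) h0 fun t _ => h1 t

/-- the general flip inequality for valley legs -/
theorem ahUp (hμ : Gibbs μ) (hT : Triv μ) {b : Bool} {z : ℤ × ℤ} {Q Q' : Set Conf}
    (hQ : MeasurableSet Q) (hQ' : MeasurableSet Q') (hd : Inc z Q)
    (h0 : ∀ f, Hom f → f ∈ Q → f (z + dir b) = f z + 1)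
    (h1 : ∀ t f, Hom f → f ∈ Q → Up b z t f → mv (tow (b, pt b z (-t), t)) 2 f ∈ Q') :
    μ.real Q * al' μ b z ≤ μ.real Q' :=
  mul_tsum_le measureReal_nonneg (fun _ => measureReal_nonneg) fun T =>
    ahUp_sum hμ hT hQ hQ' hd (range T) h0 fun t _ => h1 t

end Pool.Agent.MP_151d89_pr.H45
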