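import Pool.Agent.MP_151d89_pr.H45.Leg

/-!
Hazard inequalities for runs, ridge legs and valley legs.
-/

set_option autoImplicit false
open MeasureTheory Finset Filter

namespace Pool.Agent.MP_151d89_pr.H45
open Pool.Agent.MP_151d89_pr.H82 Pool.Agent.MP_151d89_pr.H33 Pool.Agent.MP_151d89_pr.H67
  Pool.Agent.MP_151d89_pr.H30
open Pool.Agent.MP_151d89_pr.H30.RunAux (pt_pt)
open Pool.Agent.MP_151d89_pr.H30W (Leg al Hi Lo fl NoDesc)
open Pool.Agent.MP_151d89_pr.H27 (Rdg Vly NoRay)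
open Classical

variable {μ : Measure Conf}

theorem meas_Hi (b : Bool) (z : ℤ × ℤ) : MeasurableSet {f | Hi b z f} :=
  measurableSet_setOfPred.2 (meas_eq _ _ _)

theorem meas_Lo (b : Bool) (z : ℤ × ℤ) : MeasurableSet {f | Lo b z f} :=
  measurableSet_setOfPred.2 (meas_eq' _ _ _)

theorem meas_Rdg (b : Bool) (x : ℤ × ℤ) (l : ℕ) : MeasurableSet {f | Rdg b x l f} :=
  measurableSet_setOfPred.2 ((measurableSet_setOfPred.1 (meas_Run _ _ _)).and
    ((meas_eq' _ _ _).and ((meas_eq' _ _ _).and (meas_eq' _ _ _))))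

theorem meas_Vly (b : Bool) (y : ℤ × ℤ) (l : ℕ) : MeasurableSet {f | Vly b y l f} :=
  measurableSet_setOfPred.2 ((measurableSet_setOfPred.1 (meas_Run _ _ _)).and
    ((meas_eq _ _ _).and ((meas_eq _ _ _).and (meas_eq _ _ _))))

theorem hi_iff (b : Bool) (z : ℤ × ℤ) (f : Conf) : Hi b (z + dir b) f ↔ Lo b z f := by
  simp only [Hi, Lo, add_sub_cancel_right]
  omega

theorem not_hi {f : Conf} (hf : Hom f) (b : Bool) (z : ℤ × ℤ) :
    ¬ Hi b z f ↔ f (z - dir b) = f z - 1 := by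
  have := step_dir' hf b z
  simp only [Hi]
  omega

theorem not_lo {f : Conf} (hf : Hom f) (b : Bool) (z : ℤ × ℤ) :
    ¬ Lo b z f ↔ f (z + dir b) = f z + 1 := by
  have := step_dir hf b z
  simp only [Lo]
  omega

/-- the coordinate in direction b -/
def co (b : Bool) (y : ℤ × ℤ) : ℤ := if b then y.1 else y.2

theorem co_pt (b : Bool) (x : ℤ × ℤ) (t : ℤ) : co b (pt b x t) = co b x + t := by
  cases b <;> simp [co, pt_true, pt_false]

theorem co_side (b : Bool) (x : ℤ × ℤ) :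
    co b (x + dir (!b)) = co b x ∧ co b (x - dir (!b)) = co b x := by
  cases b <;> simp [co, dir]

theorem co_dir (b : Bool) (x : ℤ × ℤ) :
    co b (x + dir b) = co b x + 1 ∧ co b (x - dir b) = co b x - 1 := by
  cases b <;> simp [co, dir]

theorem co_tow {b b' : Bool} {z y : ℤ × ℤ} {t : ℕ} (h : y ∈ tow (b', z, t)) :
    co b z ≤ co b y := by
  obtain ⟨j, -, rfl⟩ := mem_tow.1 h
  cases b <;> cases b' <;> simp [co, pt_true, pt_false]

theorem co_towUp {b b' : Bool} {z y : ℤ × ℤ} {t : ℕ} (h : y ∈ tow (b', pt b' z (-t), t)) :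
    co b y ≤ co b z := by
  obtain ⟨j, -, rfl⟩ := mem_towUp.1 h
  cases b <;> cases b' <;> simp [co, pt_true, pt_false]

theorem mv_lt {b b' : Bool} {z y : ℤ × ℤ} (t : ℕ) (c : ℤ) (f : Conf) (h : co b y < co b z) :
    mv (tow (b', z, t)) c f y = f y := mv_out c f fun e => absurd (co_tow (b := b) e) (not_le.2 h)

theorem mv_gt {b b' : Bool} {z y : ℤ × ℤ} (t : ℕ) (c : ℤ) (f : Conf) (h : co b z < co b y) :
    mv (tow (b', pt b' z (-t), t)) c f y = f y :=
  mv_out c f fun e => absurd (co_towUp (b := b) e) (not_le.2 h)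

theorem mv_top (b : Bool) (z : ℤ × ℤ) (t : ℕ) (c : ℤ) (f : Conf) :
    mv (tow (b, z, t)) c f z = f z + c := mv_in c f (tow_start (b, z, t))

theorem mv_bot (b : Bool) (z : ℤ × ℤ) (t : ℕ) (c : ℤ) (f : Conf) :
    mv (tow (b, pt b z (-t), t)) c f z = f z + c :=
  mv_in c f (mem_towUp.2 ⟨0, Nat.zero_le _, by simp [pt_zero]⟩)

/-- the sides of a ridge leg stay lower -/
theorem rdg_side {f : Conf} (hf : Hom f) {b : Bool} {x : ℤ × ℤ} {l : ℕ} (h : Rdg b x l f) {t : ℕ}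
    (ht : t ≤ l) : f (pt b x t + dir (!b)) = f x + t - 1 ∧ f (pt b x t - dir (!b)) = f x + t - 1 := by
  obtain ⟨h1, -, h3, h4⟩ := h
  have a1 := h1 t ht
  have a2 := (lip_pt hf b (x + dir (!b)) t 0).1
  have a3 := (lip_pt hf b (x - dir (!b)) t 0).1
  have a4 := step_dir hf (!b) (pt b x t)
  have a5 := step_dir' hf (!b) (pt b x t)
  have e1 : pt b (x + dir (!b)) t = pt b x t + dir (!b) := by simp only [pt]; abel
  have e2 : pt b (x - dir (!b)) t = pt b x t - dir (!b) := by simp only [pt]; abel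
  rw [pt_zero, e1, Int.abs_eq_natAbs] at a2
  rw [pt_zero, e2, Int.abs_eq_natAbs] at a3
  omega

theorem vly_run {f : Conf} {b : Bool} {y : ℤ × ℤ} {l : ℕ} (h : Run b (pt b y (-l)) l f) {t : ℕ}
    (ht : t ≤ l) : f (pt b y (-t)) = f y - t := by
  have a1 := h (l - t) (by omega)
  have a2 := h l le_rfl
  rw [pt_pt, Nat.cast_sub ht] at a1
  rw [pt_pt, neg_add_cancel, pt_zero] at a2
  have e : -(l : ℤ) + (l - t) = -t := by ring
  rw [e] at a1
  omega

theorem run_back {f : Conf} {b : Bool} {y : ℤ × ℤ} {l : ℕ}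
    (h : ∀ t : ℕ, t ≤ l → f (pt b y (-t)) = f y - t) : Run b (pt b y (-l)) l f := fun t ht => by
  have a1 := h (l - t) (by omega)
  have a2 := h l le_rfl
  rw [Nat.cast_sub ht] at a1
  have e : -(l : ℤ) + t = -(l - t) := by ring
  rw [pt_pt, e]
  omega

/-- the sides of a valley leg stay higher -/
theorem vly_side {f : Conf} (hf : Hom f) {b : Bool} {y : ℤ × ℤ} {l : ℕ} (h : Vly b y l f) {t : ℕ}
    (ht : t ≤ l) :
    f (pt b y (-t) + dir (!b)) = f y - t + 1 ∧ f (pt b y (-t) - dir (!b)) = f y - t + 1 := by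
  obtain ⟨h1, -, h3, h4⟩ := h
  have a1 := vly_run h1 ht
  have a2 := (lip_pt hf b (y + dir (!b)) 0 (-t)).1
  have a3 := (lip_pt hf b (y - dir (!b)) 0 (-t)).1
  have a4 := step_dir hf (!b) (pt b y (-t))
  have a5 := step_dir' hf (!b) (pt b y (-t))
  have e1 : pt b (y + dir (!b)) (-t) = pt b y (-t) + dir (!b) := by simp only [pt]; abel
  have e2 : pt b (y - dir (!b)) (-t) = pt b y (-t) - dir (!b) := by simp only [pt]; abel
  rw [pt_zero, e1, Int.abs_eq_natAbs] at a2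
  rw [pt_zero, e2, Int.abs_eq_natAbs] at a3
  omega

theorem av_rdg {f : Conf} {b : Bool} {x : ℤ × ℤ} {l : ℕ} (h : Av (-1) (b, x, l) f) :
    Rdg b x l f ∧ Lo b (pt b x l) f := by
  obtain ⟨a1, a2, a3, a4⟩ := h
  simp only at a1 a2 a3 a4
  have a5 := a4 0 (Nat.zero_le _)
  have a6 := a1 l le_rfl
  rw [pt_neg_one] at a2
  simp only [Nat.cast_zero, pt_zero] at a5
  refine ⟨⟨a1, by omega, by omega, by omega⟩, ?_⟩
  simp only [Lo, pt_add]
  omega

theorem rdg_av {f : Conf} (hf : Hom f) {b : Bool} {x : ℤ × ℤ} {l : ℕ} (h : Rdg b x l f)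
    (h' : Lo b (pt b x l) f) : Av (-1) (b, x, l) f := by
  have a6 := h.1 l le_rfl
  have a7 := h.2.1
  simp only [Lo, pt_add] at h'
  refine ⟨h.1, ?_, ?_, fun t ht => ?_⟩
  · simp only [pt_neg_one]
    omega
  · simp only
    omega
  · have := rdg_side hf h ht
    simp only
    omega

theorem av_vly {f : Conf} {b : Bool} {y : ℤ × ℤ} {l : ℕ} (h : Av 1 (b, pt b y (-l), l) f) :
    Vly b y l f ∧ Hi b (pt b y (-l)) f := by
  obtain ⟨a1, a2, a3, a4⟩ := h
  simp only at a1 a2 a3 a4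
  have a5 := a4 l le_rfl
  have a6 := a1 l le_rfl
  rw [pt_neg_one] at a2
  rw [← pt_add] at a3
  simp only [pt_pt, neg_add_cancel, pt_zero] at a3 a5 a6
  exact ⟨⟨a1, by omega, by omega, by omega⟩, a2⟩

theorem vly_av {f : Conf} (hf : Hom f) {b : Bool} {y : ℤ × ℤ} {l : ℕ} (h : Vly b y l f)
    (h' : Hi b (pt b y (-l)) f) : Av 1 (b, pt b y (-l), l) f := by
  have a6 := vly_run h.1 le_rfl
  have a7 := h.2.1
  refine ⟨h.1, ?_, ?_, fun t ht => ?_⟩
  · simpa only [pt_neg_one, Hi] using h'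
  · simp only [← pt_add, pt_pt, neg_add_cancel, pt_zero]
    omega
  · simp only at ht
    have := vly_side hf h (t := l - t) (by omega)
    have e : -(l : ℤ) + t = -(l - t) := by ring
    rw [Nat.cast_sub ht] at this
    simp only [pt_pt, e]
    omega

theorem run_succ {f : Conf} {b : Bool} {x : ℤ × ℤ} {l : ℕ} :
    Run b x (l + 1) f ↔ Run b x l f ∧ f (pt b x l + dir b) = f (pt b x l) + 1 := by
  rw [pt_add]
  constructor
  · intro h
    have a1 := h l (by omega)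
    have a2 := h (l + 1) le_rfl
    push_cast at a2
    exact ⟨fun t ht => h t (by omega), by omega⟩
  · rintro ⟨h, h'⟩ t ht
    rcases Nat.lt_or_eq_of_le ht with e | rfl
    · exact h t (by omega)
    · have a1 := h l le_rfl
      push_cast
      omega

theorem rdg_succ {f : Conf} (hf : Hom f) {b : Bool} {x : ℤ × ℤ} {l : ℕ} :
    Rdg b x (l + 1) f ↔ Rdg b x l f ∧ ¬ Lo b (pt b x l) f := by
  rw [not_lo hf, Rdg, Rdg, run_succ]
  tauto

theorem vly_succ {f : Conf} (hf : Hom f) {b : Bool} {y : ℤ × ℤ} {l : ℕ} :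
    Vly b y (l + 1) f ↔ Vly b y l f ∧ ¬ Hi b (pt b y (-l)) f := by
  rw [not_hi hf, pt_sub]
  have e : -(l : ℤ) - 1 = -((l + 1 : ℕ) : ℤ) := by push_cast; ring
  rw [e]
  constructor
  · rintro ⟨h, h'⟩
    have a1 := vly_run h (t := l) (by omega)
    have a2 := vly_run h le_rfl
    refine ⟨⟨run_back fun t ht => vly_run h (by omega), h'⟩, ?_⟩
    rw [a1, a2]
    push_cast
    ring
  · rintro ⟨⟨h, h'⟩, h''⟩
    refine ⟨run_back fun t ht => ?_, h'⟩
    rcases Nat.lt_or_eq_of_le ht with e | rfl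
    · exact vly_run h (by omega)
    · rw [h'', vly_run h le_rfl]
      push_cast
      ring

theorem real_congr (hμ : Gibbs μ) {E F : Set Conf} (h : ∀ f, Hom f → (f ∈ E ↔ f ∈ F)) :
    μ.real E = μ.real F :=
  le_antisymm (real_mono hμ fun f hf => (h f hf).1) (real_mono hμ fun f hf => (h f hf).2)

theorem real_split (hμ : Gibbs μ) {E A B C : Set Conf} (hC : MeasurableSet C)
    (h1 : ∀ f, Hom f → (f ∈ E ∧ f ∈ C ↔ f ∈ A)) (h2 : ∀ f, Hom f → (f ∈ E ∧ f ∉ C ↔ f ∈ B)) :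
    μ.real E = μ.real A + μ.real B := by
  have := hμ.1
  rw [← measureReal_inter_add_sdiff (μ := μ) (s := E) hC, real_congr hμ (E := E ∩ C) h1,
    real_congr hμ (E := E \ C) h2]

/-- a ridge leg ends or continues -/
theorem q_succ (hμ : Gibbs μ) (b : Bool) (x : ℤ × ℤ) (l : ℕ) : μ.real {f | Rdg b x l f} =
    μ.real {f | Av (-1) (b, x, l) f} + μ.real {f | Rdg b x (l + 1) f} :=
  real_split hμ (meas_Lo b (pt b x l)) (fun _ hf => ⟨fun h => rdg_av hf h.1 h.2, av_rdg⟩)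
    fun _ hf => (rdg_succ hf).symm

/-- a valley leg ends or continues -/
theorem q'_succ (hμ : Gibbs μ) (b : Bool) (y : ℤ × ℤ) (l : ℕ) : μ.real {f | Vly b y l f} =
    μ.real {f | Av 1 (b, pt b y (-l), l) f} + μ.real {f | Vly b y (l + 1) f} :=
  real_split hμ (meas_Hi b (pt b y (-l))) (fun _ hf => ⟨fun h => vly_av hf h.1 h.2, av_vly⟩)
    fun _ hf => (vly_succ hf).symm

/-- reversibility for the probabilities of towers -/
theorem p_rev (hμ : Gibbs μ) (m : Mv) : μ.real {f | Av (-1) m f} = μ.real {f | Av 1 m f} := by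
  have h := rev_row μ hμ m (fun _ => 1) 1 measurable_const fun _ => by simp
  simpa only [mul_one, int_ind μ (meas_Av _ m)] using h

theorem dec_Run (b : Bool) (x : ℤ × ℤ) (l : ℕ) : Dec (pt b x l) {f | Run b x l f} := by
  intro u v _ hv h1 h2 t ht
  have a1 := (lip_pt hv b x l t).1
  have a2 := (lip_pt hv b x t 0).1
  have a3 := h2 x
  have a4 := h1 l le_rfl
  rw [pt_zero] at a2
  rw [Int.abs_eq_natAbs] at a1 a2
  omega

theorem inc_Run (b : Bool) (x : ℤ × ℤ) (l : ℕ) : Inc x {f | Run b x l f} := by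
  intro u v _ hv h1 h2 t ht
  have a2 := (lip_pt hv b x t 0).1
  have a3 := h2 (pt b x t)
  have a4 := h1 t ht
  rw [pt_zero, Int.abs_eq_natAbs] at a2
  omega

theorem dec_Rdg (b : Bool) (x : ℤ × ℤ) (l : ℕ) : Dec (pt b x l) {f | Rdg b x l f} := by
  intro u v hu hv h1 h2
  have a0 := dec_Run b x l u v hu hv h1.1 h2
  obtain ⟨b1, b2, b3, b4⟩ := h1
  have a1 := a0 l le_rfl
  have a2 := b1 l le_rfl
  have a3 := h2 (x - dir b)
  have a4 := h2 (x + dir (!b))
  have a5 := h2 (x - dir (!b))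
  have a6 := step_dir' hv b x
  have a7 := step_dir hv (!b) x
  have a8 := step_dir' hv (!b) x
  exact ⟨a0, by omega, by omega, by omega⟩

theorem inc_Vly (b : Bool) (y : ℤ × ℤ) (l : ℕ) : Inc (pt b y (-l)) {f | Vly b y l f} := by
  intro u v hu hv h1 h2
  have a0 := inc_Run b _ l u v hu hv h1.1 h2
  obtain ⟨b1, b2, b3, b4⟩ := h1
  have a1 := vly_run a0 le_rfl
  have a2 := vly_run b1 le_rfl
  have a3 := h2 (y + dir b)
  have a4 := h2 (y + dir (!b))
  have a5 := h2 (y - dir (!b))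
  have a6 := step_dir hv b y
  have a7 := step_dir hv (!b) y
  have a8 := step_dir' hv (!b) y
  exact ⟨a0, by omega, by omega, by omega⟩

theorem dec_Lo (b : Bool) (z : ℤ × ℤ) : Dec z {f | Lo b z f} := by
  intro u v _ hv h1 h2
  have a1 := h2 (z + dir b)
  have a2 := step_dir hv b z
  simp only [Lo, Set.mem_ofPred_eq] at h1 ⊢
  omega

theorem inc_Hi (b : Bool) (z : ℤ × ℤ) : Inc z {f | Hi b z f} := by
  intro u v _ hv h1 h2
  have a1 := h2 (z - dir b)
  have a2 := step_dir' hv b z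
  simp only [Hi, Set.mem_ofPred_eq] at h1 ⊢
  omega

/-- AH0 for ridge legs -/
theorem ah0 (hμ : Gibbs μ) (hT : Triv μ) (b : Bool) (z : ℤ × ℤ) :
    μ.real {f | ¬ Hi b z f} * al μ b z ≤ 1 := by
  have := hμ.1
  have h := ahDn hμ hT (b := b) (z := z) (meas_Hi b z).compl MeasurableSet.univ
    (inc_Hi b z).compl (fun f hf h => (not_hi hf b z).1 h) fun _ _ _ _ _ => trivial
  rwa [probReal_univ] at h

/-- AH0 for valley legs -/
theorem ah0' (hμ : Gibbs μ) (hT : Triv μ) (b : Bool) (z : ℤ × ℤ) :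
    μ.real {f | ¬ Lo b z f} * al' μ b z ≤ 1 := by
  have := hμ.1
  have h := ahUp hμ hT (b := b) (z := z) (meas_Lo b z).compl MeasurableSet.univ
    (dec_Lo b z).compl (fun f hf h => (not_lo hf b z).1 h) fun _ _ _ _ _ => trivial
  rwa [probReal_univ] at h

/-- lowering a leg at the end of a run shortens the run -/
theorem run_mv {b b' : Bool} {x : ℤ × ℤ} {l : ℕ} (t : ℕ) {f : Conf} (h : Run b x (l + 1) f) :
    Run b x l (mv (tow (b', pt b x (l + 1 : ℕ), t)) (-2) f) ∧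
      Lo b (pt b x l) (mv (tow (b', pt b x (l + 1 : ℕ), t)) (-2) f) := by
  have k : ∀ j : ℤ, j ≤ l → mv (tow (b', pt b x (l + 1 : ℕ), t)) (-2) f (pt b x j) =
      f (pt b x j) := fun j hj => mv_lt (b := b) t _ f (by rw [co_pt, co_pt]; push_cast; omega)
  have k0 := k 0 (by omega)
  rw [pt_zero] at k0
  refine ⟨fun j hj => ?_, ?_⟩
  · rw [k j (by omega), k0, h j (by omega)]
  · have a1 := mv_top b' (pt b x (l + 1 : ℕ)) t (-2) f
    have a2 := h l (by omega)
    have a3 := h (l + 1) le_rfl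
    simp only [Lo, pt_add, k l le_rfl]
    push_cast at a1 a3 ⊢
    omega

/-- raising a leg at the start of a run shortens the run -/
theorem run_mv' {b b' : Bool} {y : ℤ × ℤ} {l : ℕ} (t : ℕ) {f : Conf}
    (h : Run b (pt b y (-(l + 1 : ℕ))) (l + 1) f) :
    Run b (pt b y (-l)) l (mv (tow (b', pt b' (pt b y (-(l + 1 : ℕ))) (-t), t)) 2 f) ∧
      Hi b (pt b y (-l)) (mv (tow (b', pt b' (pt b y (-(l + 1 : ℕ))) (-t), t)) 2 f) := by
  have k : ∀ j : ℤ, j ≤ l → mv (tow (b', pt b' (pt b y (-(l + 1 : ℕ))) (-t), t)) 2 f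
      (pt b y (-j)) = f (pt b y (-j)) :=
    fun j hj => mv_gt (b := b) t _ f (by rw [co_pt, co_pt]; push_cast; omega)
  have k0 := k 0 (by omega)
  rw [neg_zero, pt_zero] at k0
  refine ⟨run_back fun j hj => ?_, ?_⟩
  · rw [k j (by omega), k0, vly_run h (by omega)]
  · have a1 := mv_bot b' (pt b y (-(l + 1 : ℕ))) t 2 f
    have a2 := vly_run h (t := l) (by omega)
    have a3 := vly_run h le_rfl
    have e : -(l : ℤ) - 1 = -((l + 1 : ℕ) : ℤ) := by push_cast; ring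
    simp only [Hi, pt_sub, k l le_rfl, e]
    push_cast at a1 a3 ⊢
    omega

theorem run_last {b : Bool} {x : ℤ × ℤ} {l : ℕ} {f : Conf} (h : Run b x (l + 1) f) :
    f (pt b x (l + 1 : ℕ) - dir b) = f (pt b x (l + 1 : ℕ)) - 1 := by
  have a2 := h l (by omega)
  have a3 := h (l + 1) le_rfl
  rw [pt_sub]
  push_cast at a3 ⊢
  rw [add_sub_cancel_right]
  omega

theorem run_first {b : Bool} {x : ℤ × ℤ} {l : ℕ} {f : Conf} (h : Run b x (l + 1) f) :
    f (x + dir b) = f x + 1 := by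
  have a2 := h 1 (by omega)
  rwa [Nat.cast_one, pt_one] at a2

/-- K3: a run against the collinear ridge legs at its end -/
theorem k3 (hμ : Gibbs μ) (hT : Triv μ) (b : Bool) (x : ℤ × ℤ) (l : ℕ) :
    μ.real {f | Run b x (l + 1) f} * al μ b (pt b x (l + 1 : ℕ)) ≤
      μ.real {f | Run b x l f ∧ Lo b (pt b x l) f} :=
  ahDn hμ hT (meas_Run _ _ _) ((meas_Run _ _ _).inter (meas_Lo _ _)) (dec_Run b x (l + 1))
    (fun _ _ h => run_last h) fun t _ _ h _ => run_mv t h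

/-- K3, mirror: a run ending at y against the collinear valley legs at its start -/
theorem k3' (hμ : Gibbs μ) (hT : Triv μ) (b : Bool) (y : ℤ × ℤ) (l : ℕ) :
    μ.real {f | Run b (pt b y (-(l + 1 : ℕ))) (l + 1) f} * al' μ b (pt b y (-(l + 1 : ℕ))) ≤
      μ.real {f | Run b (pt b y (-l)) l f ∧ Hi b (pt b y (-l)) f} :=
  ahUp hμ hT (meas_Run _ _ _) ((meas_Run _ _ _).inter (meas_Hi _ _)) (inc_Run b _ (l + 1))
    (fun _ _ h => run_first h) fun t _ _ h _ => run_mv' t h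

theorem rdg_low {f : Conf} (hf : Hom f) {b : Bool} (b' : Bool) {x : ℤ × ℤ} {l : ℕ}
    (h : Rdg b x (l + 1) f) : f (pt b x (l + 1 : ℕ) - dir b') = f (pt b x (l + 1 : ℕ)) - 1 := by
  by_cases e : b' = b
  · rw [e]
    exact run_last h.1
  · have e' : b' = !b := by cases b <;> cases b' <;> simp at e ⊢
    rw [e', (rdg_side hf h le_rfl).2, h.1 _ le_rfl]

theorem vly_high {f : Conf} (hf : Hom f) {b : Bool} (b' : Bool) {y : ℤ × ℤ} {l : ℕ}
    (h : Vly b y (l + 1) f) :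
    f (pt b y (-(l + 1 : ℕ)) + dir b') = f (pt b y (-(l + 1 : ℕ))) + 1 := by
  by_cases e : b' = b
  · rw [e]
    exact run_first h.1
  · have e' : b' = !b := by cases b <;> cases b' <;> simp at e ⊢
    rw [e', (vly_side hf h le_rfl).1, vly_run h.1 le_rfl]

theorem rdg_mv {b b' : Bool} {x : ℤ × ℤ} {l : ℕ} (t : ℕ) {f : Conf} (h : Rdg b x (l + 1) f) :
    Rdg b x l (mv (tow (b', pt b x (l + 1 : ℕ), t)) (-2) f) := by
  have k : ∀ y, co b y ≤ co b x → mv (tow (b', pt b x (l + 1 : ℕ), t)) (-2) f y = f y :=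
    fun y hy => mv_lt (b := b) t _ f (by rw [co_pt]; push_cast; omega)
  refine ⟨(run_mv t h.1).1, ?_, ?_, ?_⟩
  · rw [k _ (by rw [(co_dir b x).2]; omega), k x le_rfl, h.2.1]
  · rw [k _ (co_side b x).1.le, k x le_rfl, h.2.2.1]
  · rw [k _ (co_side b x).2.le, k x le_rfl, h.2.2.2]

theorem vly_mv {b b' : Bool} {y : ℤ × ℤ} {l : ℕ} (t : ℕ) {f : Conf} (h : Vly b y (l + 1) f) :
    Vly b y l (mv (tow (b', pt b' (pt b y (-(l + 1 : ℕ))) (-t), t)) 2 f) := by
  have k : ∀ x, co b y ≤ co b x →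
      mv (tow (b', pt b' (pt b y (-(l + 1 : ℕ))) (-t), t)) 2 f x = f x :=
    fun x hx => mv_gt (b := b) t _ f (by rw [co_pt]; push_cast; omega)
  refine ⟨(run_mv' t h.1).1, ?_, ?_, ?_⟩
  · rw [k _ (by rw [(co_dir b y).1]; omega), k y le_rfl, h.2.1]
  · rw [k _ (co_side b y).1.ge, k y le_rfl, h.2.2.1]
  · rw [k _ (co_side b y).2.ge, k y le_rfl, h.2.2.2]

/-- AH: a ridge leg against the descending legs at its end, in both directions b' -/
theorem ah (hμ : Gibbs μ) (hT : Triv μ) (b b' : Bool) (x : ℤ × ℤ) (l : ℕ) :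
    μ.real {f | Rdg b x (l + 1) f} * al μ b' (pt b x (l + 1 : ℕ)) ≤
      μ.real {f | Av (-1) (b, x, l) f} :=
  ahDn hμ hT (meas_Rdg _ _ _) (meas_Av _ _) (dec_Rdg b x (l + 1))
    (fun _ hf h => rdg_low hf b' h) fun t _ hf h h' =>
      rdg_av (hom_Dn hf h' (rdg_low hf b' h)) (rdg_mv t h) (run_mv t h.1).2

/-- AH, mirror -/
theorem ah' (hμ : Gibbs μ) (hT : Triv μ) (b b' : Bool) (y : ℤ × ℤ) (l : ℕ) :
    μ.real {f | Vly b y (l + 1) f} * al' μ b' (pt b y (-(l + 1 : ℕ))) ≤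
      μ.real {f | Av 1 (b, pt b y (-l), l) f} :=
  ahUp hμ hT (meas_Vly _ _ _) (meas_Av _ _) (inc_Vly b y (l + 1))
    (fun _ hf h => vly_high hf b' h) fun t _ hf h h' =>
      vly_av (hom_Up hf h' (vly_high hf b' h)) (vly_mv t h) (run_mv' t h.1).2

/-- HZ: the plain hazard for ridge legs -/
theorem hz (hμ : Gibbs μ) (hT : Triv μ) (b : Bool) (x : ℤ × ℤ) (l : ℕ) :
    μ.real {f | Rdg b x l f} * μ.real {f | Lo b (pt b x l) f} ≤
      μ.real {f | Av (-1) (b, x, l) f} :=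
  (paDec hμ hT (meas_Rdg _ _ _) (meas_Lo _ _) (dec_Rdg b x l) (dec_Lo b _)).trans
    (real_mono hμ fun _ hf h => rdg_av hf h.1 h.2)

/-- HZ, mirror -/
theorem hz' (hμ : Gibbs μ) (hT : Triv μ) (b : Bool) (y : ℤ × ℤ) (l : ℕ) :
    μ.real {f | Vly b y l f} * μ.real {f | Hi b (pt b y (-l)) f} ≤
      μ.real {f | Av 1 (b, pt b y (-l), l) f} :=
  (paInc hμ hT (meas_Vly _ _ _) (meas_Hi _ _) (inc_Vly b y l) (inc_Hi b _)).trans
    (real_mono hμ fun _ hf h => vly_av hf h.1 h.2)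

/-- the plain hazard for runs -/
theorem hzRun (hμ : Gibbs μ) (hT : Triv μ) (b : Bool) (x : ℤ × ℤ) (l : ℕ) :
    μ.real {f | Run b x l f} * μ.real {f | Lo b (pt b x l) f} ≤
      μ.real {f | Run b x l f ∧ Lo b (pt b x l) f} :=
  paDec hμ hT (meas_Run _ _ _) (meas_Lo _ _) (dec_Run b x l) (dec_Lo b _)

theorem hzRun' (hμ : Gibbs μ) (hT : Triv μ) (b : Bool) (x : ℤ × ℤ) (l : ℕ) :
    μ.real {f | Run b x l f} * μ.real {f | Hi b x f} ≤ μ.real {f | Run b x l f ∧ Hi b x f} :=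
  paInc hμ hT (meas_Run _ _ _) (meas_Hi _ _) (inc_Run b x l) (inc_Hi b _)

theorem run_split (hμ : Gibbs μ) (b : Bool) (x : ℤ × ℤ) (l : ℕ) : μ.real {f | Run b x l f} =
    μ.real {f | Run b x l f ∧ Lo b (pt b x l) f} + μ.real {f | Run b x (l + 1) f} :=
  real_split hμ (meas_Lo b (pt b x l)) (fun _ _ => Iff.rfl) fun _ hf => by
    simp only [Set.mem_ofPred_eq, not_lo hf, run_succ]

/-- one down tower per start -/
theorem sum_start (hμ : Gibbs μ) (b : Bool) (x : ℤ × ℤ) (I : Finset ℕ) :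
    ∑ l ∈ I, μ.real {f | Av (-1) (b, x, l) f} ≤ μ.real {f | Rdg b x 0 f} := by
  refine disj_sum hμ I (fun _ _ => meas_Av _ _) (meas_Rdg _ _ _)
    (fun l _ f _ h => ⟨fun t ht => (av_rdg h).1.1 t (by omega), (av_rdg h).1.2⟩)
    fun i _ j _ f _ h h' => ?_
  have key : ∀ {i j : ℕ}, Av (-1) (b, x, i) f → Av (-1) (b, x, j) f → ¬ i < j := by
    intro i j h h' e
    have a1 := h.2.2.1
    have a2 := h'.1 (i + 1) e
    push_cast at a1 a2
    omega
  have a1 := key h h'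
  have a2 := key h' h
  omega

/-- one up tower per end -/
theorem sum_end (hμ : Gibbs μ) (b : Bool) (y : ℤ × ℤ) (I : Finset ℕ) :
    ∑ l ∈ I, μ.real {f | Av 1 (b, pt b y (-l), l) f} ≤ μ.real {f | Vly b y 0 f} := by
  refine disj_sum hμ I (fun _ _ => meas_Av _ _) (meas_Vly _ _ _)
    (fun l _ f _ h => ⟨run_back fun t ht => vly_run (av_vly h).1.1 (by omega), (av_vly h).1.2⟩)
    fun i _ j _ f _ h h' => ?_
  have key : ∀ {i j : ℕ}, Av 1 (b, pt b y (-i), i) f → Av 1 (b, pt b y (-j), j) f → ¬ i < j := by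
    intro i j h h' e
    have a1 := (av_vly h).2
    have a2 := vly_run (av_vly h').1.1 (t := i + 1) e
    have a3 := vly_run (av_vly h').1.1 (t := i) e.le
    have e' : -(i : ℤ) - 1 = -((i + 1 : ℕ) : ℤ) := by push_cast; ring
    simp only [Hi, pt_sub, e'] at a1
    push_cast at a1 a2
    omega
  have a1 := key h h'
  have a2 := key h' h
  omega

/-- DUAL: ridge legs over the edge from z - dir b to z against the legs at z -/
theorem dual (hμ : Gibbs μ) (hT : Triv μ) (b b' : Bool) (z : ℤ × ℤ) (I : Finset ℕ) :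
    (∑ l ∈ I, μ.real {f | Rdg b (pt b z (-(l + 1 : ℕ))) (l + 1) f}) * al μ b' z ≤ 1 := by
  have := hμ.1
  rw [sum_mul]
  refine le_trans (sum_le_sum fun l _ => ?_) ((sum_end hμ b (z - dir b) I).trans measureReal_le_one)
  have h := ah hμ hT b b' (pt b z (-(l + 1 : ℕ))) l
  have e : pt b (z - dir b) (-l) = pt b z (-(l + 1 : ℕ)) := by
    rw [← pt_neg_one, pt_pt]; congr 1; push_cast; ring
  rw [e]
  rwa [pt_pt, neg_add_cancel, pt_zero, p_rev hμ] at h

/-- DUAL, mirror: valley legs over the edge from z to z + dir b against the legs at z -/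
theorem dual' (hμ : Gibbs μ) (hT : Triv μ) (b b' : Bool) (z : ℤ × ℤ) (I : Finset ℕ) :
    (∑ l ∈ I, μ.real {f | Vly b (pt b z (l + 1 : ℕ)) (l + 1) f}) * al' μ b' z ≤ 1 := by
  have := hμ.1
  rw [sum_mul]
  refine le_trans (sum_le_sum fun l _ => ?_)
    ((sum_start hμ b (z + dir b) I).trans measureReal_le_one)
  have h := ah' hμ hT b b' (pt b z (l + 1 : ℕ)) l
  have e : pt b (pt b z (l + 1 : ℕ)) (-l) = z + dir b := by
    rw [← pt_one, pt_pt]; congr 1; push_cast; ring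
  rwa [e, pt_pt, add_neg_cancel, pt_zero, ← p_rev hμ] at h

/-- DUAL for the plain hazard: ridge legs covering z against the edge from z to z + dir b -/
theorem dualc (hμ : Gibbs μ) (hT : Triv μ) (b : Bool) (z : ℤ × ℤ) (I : Finset ℕ) :
    (∑ l ∈ I, μ.real {f | Rdg b (pt b z (-l)) l f}) * μ.real {f | Lo b z f} ≤ 1 := by
  have := hμ.1
  rw [sum_mul]
  refine le_trans (sum_le_sum fun l _ => ?_) ((sum_end hμ b z I).trans measureReal_le_one)
  have h := hz hμ hT b (pt b z (-l)) l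
  rwa [pt_pt, neg_add_cancel, pt_zero, p_rev hμ] at h

theorem dualc' (hμ : Gibbs μ) (hT : Triv μ) (b : Bool) (z : ℤ × ℤ) (I : Finset ℕ) :
    (∑ l ∈ I, μ.real {f | Vly b (pt b z l) l f}) * μ.real {f | Hi b z f} ≤ 1 := by
  have := hμ.1
  rw [sum_mul]
  refine le_trans (sum_le_sum fun l _ => ?_) ((sum_start hμ b z I).trans measureReal_le_one)
  have h := hz' hμ hT b (pt b z l) l
  rwa [pt_pt, add_neg_cancel, pt_zero, ← p_rev hμ] at h

end Pool.Agent.MP_151d89_pr.H45
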