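import Pool.Agent.MP_151d89_pr.H45.Flux

/-!
Splitting of towers at a descending edge, and the cumulative flip inequality with L-shapes.
-/

set_option autoImplicit false
open MeasureTheory Finset Filter Topology

namespace Pool.Agent.MP_151d89_pr.H45
open Pool.Agent.MP_151d89_pr.H82 Pool.Agent.MP_151d89_pr.H33 Pool.Agent.MP_151d89_pr.H67
  Pool.Agent.MP_151d89_pr.H30
open Pool.Agent.MP_151d89_pr.H30.RunAux (pt_pt)
open Pool.Agent.MP_151d89_pr.H30W (Leg al Hi Lo fl NoDesc)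
open Pool.Agent.MP_151d89_pr.H27 (Rdg Vly NoRay)
open Classical

variable {μ : Measure Conf}

theorem four_rdg {b : Bool} {x : ℤ × ℤ} {c d : ℕ} {u v r s : Conf} (hu : Hom u) (hr : Hom r)
    (h1 : Lo b (pt b x c) u) (h2 : Rdg b x (c + 1 + d) v)
    (h3 : ∀ y, r y - r (pt b x c) = min (u y - u (pt b x c)) (v y - v (pt b x c)))
    (h4 : ∀ y, s y - s (pt b x c) = max (u y - u (pt b x c)) (v y - v (pt b x c))) (hv : Hom v) :
    Av (-1) (b, x, c) r ∧ Rdg b (pt b x (c + 1 : ℕ)) d s := by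
  have a0 : Rdg b x c v := ⟨fun t ht => h2.1 t (by omega), h2.2⟩
  have a1 := h2.1 c (by omega)
  have a2 := h2.1 (c + 1) (by omega)
  have e1 : pt b x c + dir b = pt b x (c + 1 : ℕ) := by rw [pt_add]; push_cast; rfl
  have h1' := h1
  simp only [Lo, e1] at h1'
  refine ⟨rdg_av hr (dec_Rdg b x c v r hv hr a0 fun y => (h3 y).le.trans (min_le_right _ _))
    (dec_Lo b _ u r hu hr h1 fun y => (h3 y).le.trans (min_le_left _ _)), fun t ht => ?_, ?_⟩
  · have a3 := h2.1 (c + 1 + t) (by omega)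
    have a4 := h4 (pt b x (c + 1 + t : ℕ))
    have a5 := h4 (pt b x (c + 1 : ℕ))
    have a6 := (lip_pt hu b x (c + 1 + t : ℕ) c).1
    rw [Int.abs_eq_natAbs] at a6
    rw [pt_pt, ← Nat.cast_add]
    omega
  · have a3 := rdg_side hv h2 (t := c + 1) (by omega)
    have a4 := h4 (pt b x (c + 1 : ℕ) + dir (!b))
    have a4' := h4 (pt b x (c + 1 : ℕ) - dir (!b))
    have a5 := h4 (pt b x (c + 1 : ℕ))
    have a6 := step_dir hu (!b) (pt b x (c + 1 : ℕ))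
    have a7 := step_dir' hu (!b) (pt b x (c + 1 : ℕ))
    have e2 : pt b x (c + 1 : ℕ) - dir b = pt b x c := by rw [← e1, add_sub_cancel_right]
    rw [e2]
    omega

/-- DK for ridge legs -/
theorem dkR (hμ : Gibbs μ) (hT : Triv μ) (b : Bool) (x : ℤ × ℤ) (c d : ℕ) :
    μ.real {f | Lo b (pt b x c) f} * μ.real {f | Rdg b x (c + 1 + d) f} ≤
      μ.real {f | Av (-1) (b, x, c) f} * μ.real {f | Rdg b (pt b x (c + 1 : ℕ)) d f} :=
  pin4 hμ hT (z := pt b x c) (meas_Lo _ _) (meas_Rdg _ _ _) (meas_Av _ _) (meas_Rdg _ _ _)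
    fun _ _ _ _ hu hv hr _ h1 h2 h3 h4 => four_rdg hu hr h1 h2 h3 h4 hv

/-- DK for towers -/
theorem dk (hμ : Gibbs μ) (hT : Triv μ) (b : Bool) (x : ℤ × ℤ) (c d : ℕ) :
    μ.real {f | Lo b (pt b x c) f} * μ.real {f | Av (-1) (b, x, c + 1 + d) f} ≤
      μ.real {f | Av (-1) (b, x, c) f} * μ.real {f | Av (-1) (b, pt b x (c + 1 : ℕ), d) f} := by
  refine pin4 hμ hT (z := pt b x c) (meas_Lo _ _) (meas_Av _ _) (meas_Av _ _) (meas_Av _ _)
    fun u v r s hu hv hr hs h1 h2 h3 h4 => ?_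
  obtain ⟨a1, a2⟩ := av_rdg h2
  obtain ⟨a3, a4⟩ := four_rdg hu hr h1 a1 h3 h4 hv
  refine ⟨a3, rdg_av hs a4 ?_⟩
  have b1 := h4 (pt b x (c + 1 + d : ℕ))
  have b2 := h4 (pt b x (c + 1 + d : ℕ) + dir b)
  have b3 := a1.1 c (by omega)
  have b4 := a1.1 (c + 1 + d) le_rfl
  have b5 := (lip_pt hu b x (c + 1 + d : ℕ) c).1
  have b6 := (lip_pt hu b x ((c + 1 + d : ℕ) + 1) (c + 1)).1
  rw [Int.abs_eq_natAbs] at b5 b6
  simp only [Set.mem_ofPred_eq, Lo, pt_add] at h1 a2 b2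
  simp only [Lo]
  rw [pt_pt, ← Nat.cast_add, pt_add]
  omega

/-- the L-shape: the part of a ridge leg from l + 1 to l + 1 + k and a descending leg -/
def Lsh (b b' : Bool) (x : ℤ × ℤ) (l k i : ℕ) : Finset (ℤ × ℤ) :=
  tow (b, pt b x (l + 1 : ℕ), k) ∪ tow (b', pt b x (l + 1 + k : ℕ), i)

theorem mem_Lsh {b b' : Bool} {x y : ℤ × ℤ} {l k i : ℕ} : y ∈ Lsh b b' x l k i ↔
    (∃ j : ℕ, j ≤ k ∧ pt b x (l + 1 + j : ℕ) = y) ∨
      ∃ j : ℕ, j ≤ i ∧ pt b' (pt b x (l + 1 + k : ℕ)) j = y := by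
  simp only [Lsh, mem_union, mem_tow, pt_pt, ← Nat.cast_add]

theorem co_Lsh {b b' : Bool} {x y : ℤ × ℤ} {l k i : ℕ} (h : y ∈ Lsh b b' x l k i) :
    co b x + l + 1 ≤ co b y := by
  rcases mem_union.1 h with h | h
  · have := co_tow (b := b) h
    rw [co_pt] at this
    omega
  · have := co_tow (b := b) h
    rw [co_pt] at this
    omega

theorem hom_Lsh {b b' : Bool} {x : ℤ × ℤ} {l k i : ℕ} {f : Conf} (hf : Hom f)
    (h1 : Rdg b x (l + 1 + k) f) (h2 : Leg b' (pt b x (l + 1 + k : ℕ)) i f) :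
    Hom (mv (Lsh b b' x l k i) (-2) f) := by
  refine hom_mv (s := -1) (Or.inr rfl) hf fun p hp y hy hxy => ?_
  have e0 : l + 1 + k = l + k + 1 := by ring
  have key : ∀ j : ℕ, j ≤ i → pt b' (pt b x (l + 1 + k : ℕ)) j = p → f y = f p + -1 := by
    rintro j hj rfl
    have a0 := h2.1 j (by omega)
    rcases nb4 b' hxy with rfl | rfl | rfl | rfl
    · have a1 := h2.1 (j + 1) (by omega)
      rw [pt_add]
      push_cast at a1 a0 ⊢
      omega
    · rcases Nat.eq_zero_or_pos j with rfl | hp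
      · have a1 := rdg_low hf b' (e0 ▸ h1)
        rw [← e0] at a1
        simp only [Nat.cast_zero, pt_zero]
        omega
      · refine absurd (mem_Lsh.2 (Or.inr ⟨j - 1, by omega, ?_⟩)) hy
        rw [pt_sub, Nat.cast_sub hp, Nat.cast_one]
    · have := (h2.2 j hj).1
      omega
    · have := (h2.2 j hj).2
      omega
  rcases mem_Lsh.1 hp with ⟨j, hj, rfl⟩ | ⟨j, hj, e⟩
  · rcases Nat.lt_or_eq_of_le hj with hlt | rfl
    · have a0 := h1.1 (l + 1 + j) (by omega)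
      have a1 := rdg_side hf h1 (t := l + 1 + j) (by omega)
      rcases nb4 b hxy with rfl | rfl | rfl | rfl
      · refine absurd (mem_Lsh.2 (Or.inl ⟨j + 1, hlt, ?_⟩)) hy
        rw [pt_add]; congr 1
      · have a2 := h1.1 (l + j) (by omega)
        have e : pt b x (l + 1 + j : ℕ) - dir b = pt b x (l + j : ℕ) := by
          rw [pt_sub]; congr 1; push_cast; ring
        rw [e]
        omega
      · omega
      · omega
    · exact key 0 (Nat.zero_le _) (by simp only [Nat.cast_zero, pt_zero])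
  · exact key j hj e

theorem av_Lsh {b b' : Bool} {x : ℤ × ℤ} {l k i : ℕ} {f : Conf} (hf : Hom f)
    (h1 : Rdg b x (l + 1 + k) f) (h2 : Leg b' (pt b x (l + 1 + k : ℕ)) i f) :
    Av (-1) (b, x, l) (mv (Lsh b b' x l k i) (-2) f) := by
  have o : ∀ y, co b y ≤ co b x + l → mv (Lsh b b' x l k i) (-2) f y = f y :=
    fun y hy => mv_out _ _ fun e => by have := co_Lsh e; omega
  have o0 := o x (by omega)
  refine rdg_av (hom_Lsh hf h1 h2) ⟨fun t ht => ?_, ?_, ?_, ?_⟩ ?_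
  · rw [o _ (by rw [co_pt]; omega), o0, h1.1 t (by omega)]
  · rw [o _ (by rw [(co_dir b x).2]; omega), o0, h1.2.1]
  · rw [o _ (by rw [(co_side b x).1]; omega), o0, h1.2.2.1]
  · rw [o _ (by rw [(co_side b x).2]; omega), o0, h1.2.2.2]
  · have a1 := h1.1 l (by omega)
    have a2 := h1.1 (l + 1) (by omega)
    have e1 : pt b x l + dir b = pt b x (l + 1 : ℕ) := by rw [pt_add]; push_cast; rfl
    simp only [Lo]
    rw [e1, o (pt b x l) (by rw [co_pt]), mv_in (y := pt b x (l + 1 : ℕ)) _ _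
      (mem_Lsh.2 (Or.inl ⟨0, Nat.zero_le _, rfl⟩))]
    omega

theorem lo_Lsh {b b' : Bool} {x : ℤ × ℤ} {l k i : ℕ} {f : Conf} (hf : Hom f)
    (h1 : Rdg b x (l + 1 + k) f) (h2 : Leg b' (pt b x (l + 1 + k : ℕ)) (i + 1) f) {j : ℕ}
    (hj : j ≤ k) :
    Lo b' (pt b x (l + 1 + j : ℕ)) (mv (Lsh b b' x l k (i + 1)) (-2) f) ↔ j = k := by
  simp only [Lo]
  rw [mv_in (y := pt b x (l + 1 + j : ℕ)) _ _ (mem_Lsh.2 (Or.inl ⟨j, hj, rfl⟩))]
  rcases Nat.lt_or_eq_of_le hj with hlt | rfl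
  · have a0 := h1.1 (l + 1 + j) (by omega)
    by_cases e : b' = b
    · subst e
      have a1 := h1.1 (l + 1 + (j + 1)) (by omega)
      have e1 : pt b' x (l + 1 + j : ℕ) + dir b' = pt b' x (l + 1 + (j + 1) : ℕ) := by
        rw [pt_add]; congr 1
      rw [e1, mv_in _ _ (mem_Lsh.2 (Or.inl ⟨j + 1, hlt, rfl⟩))]
      omega
    · have e' : b' = !b := by cases b <;> cases b' <;> simp at e ⊢
      subst e'
      have a1 := (rdg_side hf h1 (t := l + 1 + j) (by omega)).1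
      rw [mv_out]
      · omega
      · intro hh
        rcases mem_Lsh.1 hh with ⟨n, -, e2⟩ | ⟨n, -, e2⟩ <;> cases b <;>
          simp only [pt_true, pt_false, Bool.not_true, Bool.not_false, dir, Prod.ext_iff,
            Prod.fst_add, Prod.snd_add] at e2 <;> omega
  · have a1 := h2.1 1 (by omega)
    rw [Nat.cast_one, pt_one] at a1
    rw [mv_in _ _ (mem_Lsh.2 (Or.inr ⟨1, by omega, by rw [Nat.cast_one, pt_one]⟩))]
    omega

theorem inj_Lsh {b b' : Bool} {x : ℤ × ℤ} {l k i k' i' : ℕ} {f g : Conf} (hf : Hom f) (hg : Hom g)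
    (h1 : Rdg b x (l + 1 + k) f) (h2 : Leg b' (pt b x (l + 1 + k : ℕ)) (i + 1) f)
    (h1' : Rdg b x (l + 1 + k') g) (h2' : Leg b' (pt b x (l + 1 + k' : ℕ)) (i' + 1) g)
    (e : mv (Lsh b b' x l k (i + 1)) (-2) f = mv (Lsh b b' x l k' (i' + 1)) (-2) g) :
    k = k' ∧ i = i' := by
  have e1 : k = k' := by
    rcases le_total k k' with h | h
    · exact (lo_Lsh hg h1' h2' h).1 (e ▸ (lo_Lsh hf h1 h2 le_rfl).2 rfl)
    · exact ((lo_Lsh hf h1 h2 h).1 (e ▸ (lo_Lsh hg h1' h2' le_rfl).2 rfl)).symm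
  subst e1
  refine ⟨rfl, ?_⟩
  have key : ∀ {i i' : ℕ} {f g : Conf}, Leg b' (pt b x (l + 1 + k : ℕ)) i f →
      Leg b' (pt b x (l + 1 + k : ℕ)) i' g →
      mv (Lsh b b' x l k i) (-2) f = mv (Lsh b b' x l k i') (-2) g → ¬ i < i' := by
    intro s t f g hf hg e h
    have e1 := congrFun e (pt b' (pt b x (l + 1 + k : ℕ)) s)
    have e2 := congrFun e (pt b' (pt b x (l + 1 + k : ℕ)) (s + 1 : ℕ))
    rw [mv_in _ _ (mem_Lsh.2 (Or.inr ⟨s, le_rfl, rfl⟩)),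
      mv_in _ _ (mem_Lsh.2 (Or.inr ⟨s, h.le, rfl⟩)), hf.1 s (by omega), hg.1 s (by omega)] at e1
    rw [mv_out, mv_in _ _ (mem_Lsh.2 (Or.inr ⟨s + 1, h, rfl⟩)), hf.1 (s + 1) (by omega),
      hg.1 (s + 1) (by omega)] at e2
    · omega
    · intro hh
      rcases mem_Lsh.1 hh with ⟨n, hn, e3⟩ | ⟨n, hn, e3⟩
      · cases b <;> cases b' <;> simp only [pt_true, pt_false, Prod.ext_iff] at e3 <;> omega
      · have := pt_inj e3
        omega
  have a1 := key h2 h2' e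
  have a2 := key h2' h2 e.symm
  omega

/-- cumulative K1, finite form -/
theorem k1_sum (hμ : Gibbs μ) (hT : Triv μ) (b b' : Bool) (x : ℤ × ℤ) (l : ℕ) (I J : Finset ℕ) :
    ∑ k ∈ I, μ.real {f | Rdg b x (l + 1 + k) f} *
      ∑ i ∈ J, μ.real {f | Leg b' (pt b x (l + 1 + k : ℕ)) (i + 1) f} ≤
        μ.real {f | Av (-1) (b, x, l) f} := by
  have h := mv_sum hμ (I ×ˢ J) (fun p => Lsh b b' x l p.1 (p.2 + 1)) (fun _ => -2)
    (E := fun p => {f | Rdg b x (l + 1 + p.1) f} ∩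
      {f | Leg b' (pt b x (l + 1 + p.1 : ℕ)) (p.2 + 1) f})
    (fun _ _ => (meas_Rdg _ _ _).inter (meas_Dn _ _ _)) (meas_Av (-1) (b, x, l))
    (fun _ _ f hf h => ⟨hom_Lsh hf h.1 h.2, av_Lsh hf h.1 h.2⟩)
    fun _ _ _ _ _ _ hf hg h h' e => Prod.ext_iff.2 (inj_Lsh hf hg h.1 h.2 h'.1 h'.2 e)
  rw [sum_product] at h
  refine le_trans (sum_le_sum fun k _ => ?_) h
  rw [mul_sum]
  exact sum_le_sum fun i _ =>
    paDec hμ hT (meas_Rdg _ _ _) (meas_Dn _ _ _) (dec_Rdg _ _ _) (dec_Dn _ _ _)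

theorem sum_mul_tsum_le {c : ℝ} {I : Finset ℕ} {a : ℕ → ℝ} {p : ℕ → ℕ → ℝ} (ha : ∀ k, 0 ≤ a k)
    (hp : ∀ k t, 0 ≤ p k t) (h : ∀ T, ∑ k ∈ I, a k * ∑ t ∈ range T, p k t ≤ c) :
    ∑ k ∈ I, a k * ∑' t, p k t ≤ c := by
  have h1 : ∑ k ∈ I, a k * ∑' t, p k t ≤
      ∑ k ∈ I.filter fun k => Summable (p k), a k * ∑' t, p k t := by
    rw [sum_filter]
    refine sum_le_sum fun k _ => ?_
    split_ifs with e
    · exact le_rfl
    · rw [tsum_eq_zero_of_not_summable e, mul_zero]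
  refine h1.trans (le_of_tendsto' (tendsto_finsetSum _ fun k hk =>
    ((mem_filter.1 hk).2.hasSum.tendsto_sum_nat).const_mul (a k)) fun T => le_trans ?_ (h T))
  exact sum_le_sum_of_subset_of_nonneg (filter_subset _ _) fun k _ _ =>
    mul_nonneg (ha k) (sum_nonneg fun t _ => hp k t)

/-- cumulative K1: ridge legs against the fluxes at their ends -/
theorem k1 (hμ : Gibbs μ) (hT : Triv μ) (b b' : Bool) (x : ℤ × ℤ) (l : ℕ) (I : Finset ℕ) :
    ∑ k ∈ I, μ.real {f | Rdg b x (l + 1 + k) f} * fl μ b' (pt b x (l + 1 + k : ℕ) + dir b') ≤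
      μ.real {f | Av (-1) (b, x, l) f} := by
  simp only [fl_leg hμ]
  exact sum_mul_tsum_le (fun _ => measureReal_nonneg) (fun _ _ => measureReal_nonneg)
    fun T => k1_sum hμ hT b b' x l I (range T)

end Pool.Agent.MP_151d89_pr.H45
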