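import Pool.Agent.MP_151d89_pr.H67E.Spec
import Pool.Agent.MP_151d89_pr.H35.Flip

/-!
The pairs in which the up tower ends one step after the end of the down tower.
-/

set_option autoImplicit false
open MeasureTheory Finset

namespace Pool.Agent.MP_151d89_pr.H45
open Pool.Agent.MP_151d89_pr.H82 Pool.Agent.MP_151d89_pr.H33 Pool.Agent.MP_151d89_pr.H67
  Pool.Agent.MP_151d89_pr.H30 Pool.Agent.MP_151d89_pr.H67E
open Pool.Agent.MP_151d89_pr.H30.RunAux (pt_pt)
open Pool.Agent.MP_151d89_pr.H30W (Hi Lo)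
open Pool.Agent.MP_151d89_pr.H27 (II mem_II Vly)
open Classical

namespace R7A

variable {μ : Measure Conf} {φ : ℤ × ℤ → ℝ} {U : Finset (ℤ × ℤ)} {lam TV : ℝ}
  {A : Bool → ℤ × ℤ → ℝ}

/-- the tower with a given end -/
def M (b : Bool) (y : ℤ × ℤ) (l : ℕ) : Mv := (b, pt b y (-l), l)

/-- the oscillation energy at the end of a tower -/
noncomputable def E (μ : Measure Conf) (n : ℕ) (φ : ℤ × ℤ → ℝ) (m : Mv) : ℝ :=
  if m ∈ TT n then pp μ m * os φ m m.2.2 ^ 2 else 0

theorem M_end (b : Bool) (y : ℤ × ℤ) (l : ℕ) : pt b (pt b y (-l)) l = y := by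
  rw [pt_pt, neg_add_cancel, pt_zero]

theorem M_inj {b b' : Bool} {y y' : ℤ × ℤ} {l l' : ℕ} (h : M b y l = M b' y' l') :
    b = b' ∧ y = y' ∧ l = l' := by
  simp only [M, Prod.mk.injEq] at h
  obtain ⟨rfl, e, rfl⟩ := h
  exact ⟨rfl, add_right_cancel e, rfl⟩

theorem sumE (n : ℕ) {α : Type} (s : Finset α) (i : α → Mv)
    (hi : ∀ a a', i a = i a' → a = a') : ∑ a ∈ s, E μ n φ (i a) ≤ QQ μ n φ := by
  refine sum_inj s (TT n) i (fun a _ h => ?_) (fun a _ a' _ _ _ => hi a a') (fun a _ h => ?_)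
    fun m _ => mul_nonneg (pp_nonneg μ m) (sum_nonneg fun _ _ => sq_nonneg _)
  · by_contra e
    exact h (if_neg e)
  · unfold E at h ⊢
    split_ifs with e
    · exact mul_le_mul_of_nonneg_left (single_le_sum (f := fun t => os φ (i a) t ^ 2)
        (fun _ _ => sq_nonneg _) (self_mem_range_succ _)) (pp_nonneg μ _)
    · exact absurd (if_neg e) h

theorem os_M (φ : ℤ × ℤ → ℝ) (b : Bool) (y : ℤ × ℤ) (l : ℕ) :
    os φ (M b y l) (M b y l).2.2 = φ y - ps φ (M b y l) := by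
  simp only [os, M, M_end]

theorem os_zero (φ : ℤ × ℤ → ℝ) (b : Bool) (y : ℤ × ℤ) : φ y - ps φ (M b y 0) = 0 := by
  obtain ⟨t, h, e⟩ := ps_ex φ (M b y 0)
  obtain rfl : t = 0 := Nat.le_zero.1 h
  rw [e]
  simp [M, pt_zero]

theorem M_succ (b : Bool) (y : ℤ × ℤ) (k : ℕ) :
    pt b y (-(k + 1 : ℕ)) = pt b (y - dir b) (-k) := by
  rw [pt_dir']; congr 1; push_cast; ring

theorem os_succ (φ : ℤ × ℤ → ℝ) (b : Bool) (y : ℤ × ℤ) (k : ℕ) :
    (φ y - ps φ (M b y (k + 1))) ^ 2 ≤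
      2 * ww φ b (y - dir b) ^ 2 + 2 * (φ (y - dir b) - ps φ (M b (y - dir b) k)) ^ 2 := by
  have a0 := os_nonneg φ (M b y (k + 1)) le_rfl
  have a1 := os_nonneg φ (M b (y - dir b) k) le_rfl
  rw [os_M] at a0 a1
  have a2 : φ y - φ (y - dir b) ≤ ww φ b (y - dir b) := by
    unfold ww
    rw [sub_add_cancel]
    exact le_abs_self _
  have a3 := ww_nonneg φ b (y - dir b)
  have a4 : φ y - ps φ (M b y (k + 1)) ≤
      ww φ b (y - dir b) + (φ (y - dir b) - ps φ (M b (y - dir b) k)) := by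
    obtain ⟨t, h, e⟩ := ps_ex φ (M b y (k + 1))
    rcases Nat.lt_or_eq_of_le h with h' | h'
    · have a5 := ps_le φ (M b (y - dir b) k) (t := t) (Nat.lt_succ_iff.1 h')
      simp only [M, ← M_succ] at a5 e ⊢
      linarith
    · subst h'
      simp only [M, M_end] at e a1 ⊢
      linarith
  nlinarith [sq_nonneg (ww φ b (y - dir b) - (φ (y - dir b) - ps φ (M b (y - dir b) k)))]

/-- the summand for the pair with parameters b, y, l, l' -/
noncomputable def G (μ : Measure Conf) (n : ℕ) (φ : ℤ × ℤ → ℝ) (b : Bool) (y : ℤ × ℤ)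
    (l l' : ℕ) : ℝ :=
  if M b y l ∈ TT n ∧ M (!b) (y + dir b) l' ∈ TT n then
    (ps φ (M b y l) - ps φ (M (!b) (y + dir b) l')) ^ 2 * pq μ (M b y l) (M (!b) (y + dir b) l')
  else 0

theorem G_nonneg (n : ℕ) (b : Bool) (y : ℤ × ℤ) (l l' : ℕ) : 0 ≤ G μ n φ b y l l' := by
  unfold G
  split_ifs
  · exact mul_nonneg (sq_nonneg _) (pq_nonneg _ _ _)
  · exact le_rfl

theorem reidx (n : ℕ) : Pc μ n φ R7 ≤ ∑ b : Bool, ∑ y ∈ box 0 n, ∑ l ∈ range (2 * n + 1),
    ∑ l' ∈ range (2 * n + 1), G μ n φ b y l l' := by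
  have key : ∀ m m' : Mv, R7 m m' → m = M m.1 (pt m.1 m.2.1 m.2.2) m.2.2 ∧
      m' = M (!m.1) (pt m.1 m.2.1 m.2.2 + dir m.1) m'.2.2 := by
    rintro ⟨b, x, l⟩ ⟨b', x', l'⟩ ⟨h1, h2⟩
    simp only at h1 h2
    subst h1
    simp only [M, pt_add, ← h2, pt_pt, add_neg_cancel, pt_zero, and_self]
  have h := sum_inj (II n ×ˢ II n)
    ((univ : Finset Bool) ×ˢ box 0 n ×ˢ range (2 * n + 1) ×ˢ range (2 * n + 1))
    (fun p => (p.1.1, pt p.1.1 p.1.2.1 p.1.2.2, p.1.2.2, p.2.2.2))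
    (g := fun p => if R7 p.1 p.2 then (ps φ p.1 - ps φ p.2) ^ 2 * pq μ p.1 p.2 else 0)
    (h := fun q => G μ n φ q.1 q.2.1 q.2.2.1 q.2.2.2)
    (fun p hp _ => ?_) (fun p _ q _ h1 h2 e => ?_) (fun p hp h0 => ?_) fun _ _ => G_nonneg _ _ _ _ _
  · simpa only [Pc, sum_product] using h
  · obtain ⟨a1, a2⟩ := mem_product.1 hp
    have a3 := (mem_TT.1 (II_TT a1)).2
    have a4 := (mem_TT.1 (II_TT a2)).2
    simp only [mem_product, mem_univ, true_and, mem_range, mem_box0]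
    exact ⟨(mem_II.1 a1).2.2, by omega, by omega⟩
  · have r1 : R7 p.1 p.2 := by_contra fun e' => h1 (if_neg e')
    have r2 : R7 q.1 q.2 := by_contra fun e' => h2 (if_neg e')
    simp only [Prod.mk.injEq] at e
    obtain ⟨e1, e2, e3, e4⟩ := e
    refine Prod.ext ?_ ?_
    · rw [(key _ _ r1).1, (key _ _ r2).1, e2, e1, e3]
    · rw [(key _ _ r1).2, (key _ _ r2).2, e2, e1, e4]
  · have r1 : R7 p.1 p.2 := by_contra fun e' => h0 (if_neg e')
    obtain ⟨a1, a2⟩ := mem_product.1 hp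
    simp only [G, ← (key _ _ r1).1, ← (key _ _ r1).2, if_pos r1, II_TT a1, II_TT a2, and_self,
      if_true, le_refl]

theorem G_le (n : ℕ) (b : Bool) (y : ℤ × ℤ) (l l' : ℕ) : G μ n φ b y l l' ≤
    3 * ((if M b y l ∈ TT n then (φ y - ps φ (M b y l)) ^ 2 else 0) + ww φ b y ^ 2 +
      if M (!b) (y + dir b) l' ∈ TT n then
        (φ (y + dir b) - ps φ (M (!b) (y + dir b) l')) ^ 2 else 0) *
      pq μ (M b y l) (M (!b) (y + dir b) l') := by
  have p0 := pq_nonneg μ (M b y l) (M (!b) (y + dir b) l')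
  unfold G
  by_cases h : M b y l ∈ TT n ∧ M (!b) (y + dir b) l' ∈ TT n
  · rw [if_pos h, if_pos h.1, if_pos h.2, ww, sq_abs]
    refine mul_le_mul_of_nonneg_right ?_ p0
    generalize ps φ (M b y l) = u
    generalize ps φ (M (!b) (y + dir b) l') = v
    generalize φ y = s
    generalize φ (y + dir b) = t
    nlinarith [sq_nonneg (s - u - (t - s)), sq_nonneg (s - u + (t - v)), sq_nonneg (t - s + (t - v))]
  · rw [if_neg h]
    refine mul_nonneg (mul_nonneg (by norm_num) ?_) p0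
    split_ifs <;> positivity

theorem t1 (D : Dat μ φ U lam TV A) (n N : ℕ) (b : Bool) (y : ℤ × ℤ) (l : ℕ) :
    ∑ l' ∈ range N, (if M b y l ∈ TT n then (φ y - ps φ (M b y l)) ^ 2 else 0) *
      pq μ (M b y l) (M (!b) (y + dir b) l') ≤ E μ n φ (M b y l) := by
  rw [← mul_sum, E, os_M]
  split_ifs
  · rw [mul_comm]
    exact mul_le_mul_of_nonneg_right (H35.up_disj D.gib (!b) (y + dir b) (range N)
      (Q := {f | Av (-1) (M b y l) f}) (meas_Av _ _)) (sq_nonneg _)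
  · rw [zero_mul]

theorem t2 (D : Dat μ φ U lam TV A) (N : ℕ) (b : Bool) (y : ℤ × ℤ) :
    ∑ l ∈ range N, ∑ l' ∈ range N, ww φ b y ^ 2 * pq μ (M b y l) (M (!b) (y + dir b) l') ≤
      5 * lam * ww φ b y := by
  have := D.gib.1
  simp only [← mul_sum]
  refine le_trans (mul_le_mul_of_nonneg_left ((H35.pl7_link D.gib b y (range N) (range N)).trans
    (real_mono D.gib (F := {f | ¬ Lo (!b) y f}) fun f hf h => ?_)) (sq_nonneg _))
    (D.edge b y measureReal_nonneg measureReal_le_one (D.a0' (!b) y))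
  obtain ⟨-, h2, h3⟩ := h
  rw [not_lo hf] at h2
  rw [not_hi hf, add_sub_cancel_right] at h3
  have a1 := step_dir hf b (y + dir (!b))
  have e : y + dir (!b) + dir b = y + dir b + dir (!b) := by abel
  rw [e] at a1
  simp only [Set.mem_ofPred_eq, Lo]
  omega

theorem t3 (D : Dat μ φ U lam TV A) (n N : ℕ) (b : Bool) (y : ℤ × ℤ) :
    ∑ l ∈ range (N + 1), ∑ l' ∈ range (N + 1), (if M (!b) (y + dir b) l' ∈ TT n then
      (φ (y + dir b) - ps φ (M (!b) (y + dir b) l')) ^ 2 else 0) *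
        pq μ (M b y l) (M (!b) (y + dir b) l') ≤
      10 * lam * ww φ (!b) (y + dir b - dir (!b)) +
        2 * ∑ k ∈ range N, E μ n φ (M (!b) (y + dir b - dir (!b)) k) := by
  have := D.gib.1
  rw [sum_comm, sum_range_succ']
  simp only [os_zero, ne_eq, OfNat.ofNat_ne_zero, not_false_eq_true, zero_pow, ite_self, zero_mul,
    sum_const_zero, add_zero, ← mul_sum]
  generalize hu : y + dir b - dir (!b) = u
  have a1 : ∀ k ∈ range N, (if M (!b) (y + dir b) (k + 1) ∈ TT n then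
      (φ (y + dir b) - ps φ (M (!b) (y + dir b) (k + 1))) ^ 2 else 0) *
        ∑ l ∈ range (N + 1), pq μ (M b y l) (M (!b) (y + dir b) (k + 1)) ≤
      2 * (ww φ (!b) u ^ 2 * μ.real {f | Av 1 (M (!b) u k) f}) + 2 * E μ n φ (M (!b) u k) := by
    intro k _
    have b1 := H35.pl7_init D.gib b y (pt (!b) (y + dir b) (-(k + 1 : ℕ))) k (range (N + 1))
      (by rw [← Nat.cast_succ, M_end])
    have b2 := os_succ φ (!b) (y + dir b) k
    have b3 : 0 ≤ μ.real {f | Av 1 (M (!b) u k) f} := measureReal_nonneg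
    have b4 : pp μ (M (!b) u k) = μ.real {f | Av 1 (M (!b) u k) f} := p_rev D.gib _
    rw [hu] at b2
    have b5 : (!b, pt (!b) (y + dir b) (-(k + 1 : ℕ)), k) = M (!b) u k := by
      rw [M_succ, hu, M]
    rw [b5] at b1
    split_ifs with e
    · have e' : M (!b) u k ∈ TT n := by
        rw [← b5]
        exact mem_TT.2 ⟨(mem_TT.1 e).1, (Nat.le_succ k).trans (mem_TT.1 e).2⟩
      rw [E, if_pos e', os_M, b4]
      refine (mul_le_mul b2 b1 (sum_nonneg fun _ _ => pq_nonneg _ _ _) (by positivity)).trans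
        (le_of_eq (by ring))
    · rw [zero_mul]
      refine add_nonneg (by positivity) (mul_nonneg (by norm_num) ?_)
      unfold E
      split_ifs
      · exact mul_nonneg (pp_nonneg _ _) (sq_nonneg _)
      · exact le_rfl
  refine (sum_le_sum a1).trans ?_
  rw [sum_add_distrib, ← mul_sum, ← mul_sum, ← mul_sum]
  have a2 : ∑ k ∈ range N, μ.real {f | Av 1 (M (!b) u k) f} ≤ μ.real {f | ¬ Lo b u f} :=
    (sum_end D.gib (!b) u (range N)).trans (real_mono D.gib fun f _ h => by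
      have := h.2.2.1
      rw [Bool.not_not] at this
      simp only [Set.mem_ofPred_eq, Lo]
      omega)
  have a3 := D.edge (!b) u (ω := μ.real {f | ¬ Lo b u f}) measureReal_nonneg measureReal_le_one
    (by rw [Bool.not_not]; exact D.a0' b u)
  have a4 := mul_le_mul_of_nonneg_left a2 (sq_nonneg (ww φ (!b) u))
  linarith

end R7A

open R7A in
theorem r7_row : PStmt R7 := by
  intro μ φ U lam TV A D n
  have l0 := D.lam0
  have s1 := sumE (μ := μ) (φ := φ) n ((univ : Finset Bool) ×ˢ box 0 n ×ˢ range (2 * n + 1))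
    (fun p => M p.1 p.2.1 p.2.2) fun p q e =>
      Prod.ext (M_inj e).1 (Prod.ext (M_inj e).2.1 (M_inj e).2.2)
  have s3 := sumE (μ := μ) (φ := φ) n ((univ : Finset Bool) ×ˢ box 0 n ×ˢ range (2 * n))
    (fun p => M (!p.1) (p.2.1 + dir p.1 - dir (!p.1)) p.2.2) fun p q e => by
      obtain ⟨e1, e2, e3⟩ := M_inj e
      have e4 := Bool.not_inj e1
      rw [e4] at e2
      exact Prod.ext e4 (Prod.ext (add_right_cancel (sub_left_inj.1 e2)) e3)
  simp only [sum_product] at s1 s3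
  have s2 : ∑ b : Bool, ∑ y ∈ box 0 n, ww φ b y ≤ 2 * TV :=
    (sum_le_sum (g := fun _ => TV) fun b _ => D.tv b _).trans (by simp)
  have s4 : ∑ b : Bool, ∑ y ∈ box 0 n, ww φ (!b) (y + dir b - dir (!b)) ≤ 2 * TV := by
    refine (sum_le_sum (g := fun _ => TV) fun b _ => ?_).trans (by simp)
    have := D.tv (!b) ((box 0 n).image fun y => y + dir b - dir (!b))
    rwa [sum_image (g := fun y => y + dir b - dir (!b))
      fun x _ y _ e => add_right_cancel (sub_left_inj.1 e)] at this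
  have key : ∀ (b : Bool) (y : ℤ × ℤ), ∑ l ∈ range (2 * n + 1), ∑ l' ∈ range (2 * n + 1),
      G μ n φ b y l l' ≤ 3 * ∑ l ∈ range (2 * n + 1), E μ n φ (M b y l) +
        15 * lam * ww φ b y + 30 * lam * ww φ (!b) (y + dir b - dir (!b)) +
        6 * ∑ k ∈ range (2 * n), E μ n φ (M (!b) (y + dir b - dir (!b)) k) := by
    intro b y
    have a1 := sum_le_sum fun l (_ : l ∈ range (2 * n + 1)) => t1 D n (2 * n + 1) b y l
    have a2 := t2 D (2 * n + 1) b y
    have a3 := t3 D n (2 * n) b y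
    refine (sum_le_sum fun l _ => sum_le_sum fun l' _ => G_le n b y l l').trans ?_
    simp only [mul_assoc, add_mul, ← mul_sum, sum_add_distrib] at a1 a2 a3 ⊢
    linarith
  refine (reidx n).trans ((sum_le_sum fun b _ => sum_le_sum fun y _ => key b y).trans ?_)
  simp only [sum_add_distrib, ← mul_sum]
  have q0 := QQ_nonneg μ n φ
  have q1 : 0 ≤ lam ^ 2 * (U.card + LL μ n U) :=
    mul_nonneg (sq_nonneg _) (add_nonneg (Nat.cast_nonneg _) (LL_nonneg μ n U))
  have q2 := mul_le_mul_of_nonneg_left s2 l0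
  have q3 := mul_le_mul_of_nonneg_left s4 l0
  have q4 := mul_nonneg l0 D.tv0
  unfold Bd
  linarith

end Pool.Agent.MP_151d89_pr.H45
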