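import Pool.Agent.MP_151d89_pr.H45.DK
import Pool.Agent.MP_151d89_pr.H21.CorR

/-!
The point reflection f ↦ -f(-·) on measures: dictionary of probabilities.
-/

set_option autoImplicit false
open MeasureTheory Finset Filter Topology

namespace Pool.Agent.MP_151d89_pr.H45
open Pool.Agent.MP_151d89_pr.H82 Pool.Agent.MP_151d89_pr.H33 Pool.Agent.MP_151d89_pr.H67
  Pool.Agent.MP_151d89_pr.H30
open Pool.Agent.MP_151d89_pr.H30.RunAux (pt_pt)
open Pool.Agent.MP_151d89_pr.H30.NullP (rf rf_rf hom_rf)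
open Pool.Agent.MP_151d89_pr.H30W (Leg al Hi Lo fl NoDesc)
open Pool.Agent.MP_151d89_pr.H27 (Rdg Vly NoRay)
open Classical

variable {μ : Measure Conf}

/-- the reflected measure -/
noncomputable def mir (μ : Measure Conf) : Measure Conf :=
  μ.map (FinalAux.T (Equiv.neg (ℤ × ℤ)) (-1) 0)

theorem gibbs_mir (hμ : Gibbs μ) : Gibbs (mir μ) := FinalAux.gibbs_T hμ H21.iso_neg rfl 0

theorem triv_mir (hT : Triv μ) : Triv (mir μ) := H5.triv_T hT _ (-1) 0

theorem real_mir {p : Conf → Prop} (h : MeasurableSet {f | p f}) :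
    (mir μ).real {f | p f} = μ.real {f | p (rf f)} := by
  simp only [mir, Measure.real, Measure.map_apply (FinalAux.meas_T _ _ _) h, Set.preimage_ofPred_eq,
    H21.T_neg]

theorem ae_mir (p : Conf → Prop) : (∀ᵐ f ∂(mir μ), p f) ↔ ∀ᵐ f ∂μ, p (rf f) := by
  simp only [mir, FinalAux.ae_T μ _ (ε := -1) rfl, H21.T_neg]

theorem neg_pt (b : Bool) (z : ℤ × ℤ) (t : ℤ) : -pt b z t = pt b (-z) (-t) := by
  simp [pt, add_comm]

theorem lo_rf (b : Bool) (z : ℤ × ℤ) (f : Conf) : Lo b z (rf f) ↔ Hi b (-z) f := by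
  simp only [Lo, Hi, rf, neg_add, ← sub_eq_add_neg]
  omega

theorem hi_rf (b : Bool) (z : ℤ × ℤ) (f : Conf) : Hi b z (rf f) ↔ Lo b (-z) f := by
  simp only [Lo, Hi, rf, neg_sub', sub_neg_eq_add]
  omega

theorem leg_rf (b : Bool) (z : ℤ × ℤ) (t : ℕ) (f : Conf) : Leg b z t (rf f) ↔ Up b (-z) t f := by
  simp only [Leg, Up, rf, neg_sub', sub_neg_eq_add, neg_add, ← sub_eq_add_neg, neg_pt]
  refine and_congr (forall₂_congr fun _ _ => ?_) (forall₂_congr fun _ _ => ?_) <;> omega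

theorem up_rf (b : Bool) (z : ℤ × ℤ) (t : ℕ) (f : Conf) : Up b z t (rf f) ↔ Leg b (-z) t f := by
  rw [← neg_neg z, ← leg_rf, rf_rf, neg_neg]

theorem run_rf (b : Bool) (x : ℤ × ℤ) (l : ℕ) (f : Conf) :
    Run b x l (rf f) ↔ Run b (pt b (-x) (-l)) l f := by
  constructor
  · intro h
    have := NullP.run_rf h
    rwa [rf_rf, neg_pt] at this
  · intro h
    have := NullP.run_rf h
    rwa [pt_pt, neg_add_cancel, pt_zero, neg_neg] at this

theorem rdg_rf (b : Bool) (x : ℤ × ℤ) (l : ℕ) (f : Conf) : Rdg b x l (rf f) ↔ Vly b (-x) l f := by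
  simp only [Rdg, Vly, run_rf]
  simp only [rf, neg_sub', sub_neg_eq_add, neg_add, ← sub_eq_add_neg]
  refine and_congr_right fun _ => ?_
  omega

theorem vly_rf (b : Bool) (y : ℤ × ℤ) (l : ℕ) (f : Conf) : Vly b y l (rf f) ↔ Rdg b (-y) l f := by
  rw [← neg_neg y, ← rdg_rf, rf_rf, neg_neg]

theorem mir_lo (b : Bool) (z : ℤ × ℤ) :
    (mir μ).real {f | Lo b z f} = μ.real {f | Hi b (-z) f} := by
  simp only [real_mir (meas_Lo b z), lo_rf]

theorem mir_hi (b : Bool) (z : ℤ × ℤ) :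
    (mir μ).real {f | Hi b z f} = μ.real {f | Lo b (-z) f} := by
  simp only [real_mir (meas_Hi b z), hi_rf]

theorem mir_rdg (b : Bool) (x : ℤ × ℤ) (l : ℕ) :
    (mir μ).real {f | Rdg b x l f} = μ.real {f | Vly b (-x) l f} := by
  simp only [real_mir (meas_Rdg b x l), rdg_rf]

theorem mir_vly (b : Bool) (y : ℤ × ℤ) (l : ℕ) :
    (mir μ).real {f | Vly b y l f} = μ.real {f | Rdg b (-y) l f} := by
  simp only [real_mir (meas_Vly b y l), vly_rf]

theorem mir_leg (b : Bool) (z : ℤ × ℤ) (t : ℕ) :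
    (mir μ).real {f | Leg b z t f} = μ.real {f | Up b (-z) t f} := by
  simp only [real_mir (meas_Dn b z t), leg_rf]

theorem mir_up (b : Bool) (z : ℤ × ℤ) (t : ℕ) :
    (mir μ).real {f | Up b z t f} = μ.real {f | Leg b (-z) t f} := by
  simp only [real_mir (meas_Up b z t), up_rf]

theorem mir_run (b : Bool) (x : ℤ × ℤ) (l : ℕ) :
    (mir μ).real {f | Run b x l f} = μ.real {f | Run b (pt b (-x) (-l)) l f} := by
  simp only [real_mir (meas_Run b x l), run_rf]

/-- the probability of a tower under reflection -/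
theorem mir_av (hμ : Gibbs μ) (b : Bool) (x : ℤ × ℤ) (l : ℕ) :
    (mir μ).real {f | Av (-1) (b, x, l) f} = μ.real {f | Av (-1) (b, pt b (-x) (-l), l) f} := by
  have h1 := q_succ (gibbs_mir hμ) b x l
  have h2 := q'_succ hμ b (-x) l
  rw [mir_rdg, mir_rdg] at h1
  rw [p_rev hμ]
  linarith

theorem noRay_mir (hN : NoRay μ) : NoRay (mir μ) := by
  rw [NoRay, ae_mir]
  filter_upwards [hN] with f hf b x
  simp only [run_rf, neg_pt, neg_neg, pt_pt, add_neg_cancel, pt_zero]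
  exact (hf b (-x)).symm

theorem noDesc_mir (hN : NoDesc μ) : NoDesc (mir μ) := by
  rw [NoDesc, ae_mir]
  filter_upwards [hN] with f hf b x
  obtain ⟨⟨l, h1⟩, l', h2⟩ := hf b (-x)
  simp only [rf, neg_pt, neg_neg]
  exact ⟨⟨l', by omega⟩, l, by omega⟩

theorem mir_al (hμ : Gibbs μ) (hN : NoDesc μ) (b : Bool) (z : ℤ × ℤ) :
    al (mir μ) b z = al μ b (-z) := by
  rw [← al'_eq hμ hN]
  exact tsum_congr fun t => mir_leg b z t

theorem mir_fl (hμ : Gibbs μ) (hN : NoDesc μ) (b : Bool) (z : ℤ × ℤ) :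
    fl (mir μ) b (z + dir b) = fl μ b (-z) := by
  rw [fl_leg (gibbs_mir hμ), fl_up hμ hN]
  exact tsum_congr fun t => mir_leg b z (t + 1)

/-- cumulative K1, mirror: valley legs against the fluxes at their starts -/
theorem k1m (hμ : Gibbs μ) (hT : Triv μ) (hN : NoDesc μ) (b b' : Bool) (y : ℤ × ℤ) (l : ℕ)
    (I : Finset ℕ) :
    ∑ k ∈ I, μ.real {f | Vly b y (l + 1 + k) f} * fl μ b' (pt b y (-(l + 1 + k : ℕ))) ≤
      μ.real {f | Av (-1) (b, pt b y (-l), l) f} := by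
  have h := k1 (gibbs_mir hμ) (triv_mir hT) b b' (-y) l I
  simpa only [mir_rdg, mir_fl hμ hN, mir_av hμ, neg_pt, neg_neg] using h

/-- DK for valley legs -/
theorem dkV (hμ : Gibbs μ) (hT : Triv μ) (b : Bool) (y : ℤ × ℤ) (c d : ℕ) :
    μ.real {f | Hi b (pt b y (-c)) f} * μ.real {f | Vly b y (c + 1 + d) f} ≤
      μ.real {f | Av (-1) (b, pt b y (-c), c) f} *
        μ.real {f | Vly b (pt b y (-(c + 1 : ℕ))) d f} := by
  have h := dkR (gibbs_mir hμ) (triv_mir hT) b (-y) c d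
  simpa only [mir_rdg, mir_lo, mir_av hμ, neg_pt, neg_neg] using h

end Pool.Agent.MP_151d89_pr.H45
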