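import Pool.Agent.MP_151d89_pr.H95.Mean

/-!
Positive association and the four events inequality for heights pinned at a site.
-/

set_option autoImplicit false
open MeasureTheory Finset Filter

namespace Pool.Agent.MP_151d89_pr.H45
open Pool.Agent.MP_151d89_pr.H82 Pool.Agent.MP_151d89_pr.H33 Pool.Agent.MP_151d89_pr.H67
  Pool.Agent.MP_151d89_pr.H30 Pool.Agent.MP_151d89_pr.H30.RunAux
open Classical

variable {μ : Measure Conf}

/-- heights seen from the site z -/
def nz (z : ℤ × ℤ) (f : Conf) : Conf := fun x => f x - f z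

/-- the event is decreasing in the heights seen from z -/
def Dec (z : ℤ × ℤ) (A : Set Conf) : Prop :=
  ∀ u v : Conf, Hom u → Hom v → u ∈ A → (∀ x, v x - v z ≤ u x - u z) → v ∈ A

/-- the event is increasing in the heights seen from z -/
def Inc (z : ℤ × ℤ) (A : Set Conf) : Prop :=
  ∀ u v : Conf, Hom u → Hom v → u ∈ A → (∀ x, u x - u z ≤ v x - v z) → v ∈ A

/-- the hypothesis of the four events inequality -/
def Four (z : ℤ × ℤ) (P Q R S : Set Conf) : Prop :=
  ∀ u v r s : Conf, Hom u → Hom v → Hom r → Hom s → u ∈ P → v ∈ Q →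
    (∀ x, r x - r z = min (u x - u z) (v x - v z)) →
    (∀ x, s x - s z = max (u x - u z) (v x - v z)) → r ∈ R ∧ s ∈ S

theorem hom_nz (z : ℤ × ℤ) {f : Conf} (hf : Hom f) : Hom (nz z f) := fun x y h => by
  simpa [nz] using hf x y h

theorem nz_inj (z : ℤ × ℤ) (Λ : Finset (ℤ × ℤ)) (g : Conf) (S : Set Conf) :
    Set.InjOn (nz z) (FI Λ g S) := by
  obtain ⟨w, hw⟩ := Infinite.exists_notMem_finset Λ
  intro u hu v hv e
  have h1 := (mem_FS.1 (mem_FI.1 (mem_coe.1 hu)).1).2 w hw
  have h2 := (mem_FS.1 (mem_FI.1 (mem_coe.1 hv)).1).2 w hw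
  have h3 := congrFun e w
  funext y
  have h4 := congrFun e y
  simp only [nz] at h3 h4
  omega

theorem fin4 {z : ℤ × ℤ} {P Q R S : Set Conf} (h : Four z P Q R S) (Λ : Finset (ℤ × ℤ))
    (g : Conf) : (FI Λ g P).card * (FI Λ g Q).card ≤ (FI Λ g R).card * (FI Λ g S).card := by
  have key : ∀ u ∈ FI Λ g P, ∀ v ∈ FI Λ g Q, nz z u ⊓ nz z v ∈ (FI Λ g R).image (nz z) ∧
      nz z u ⊔ nz z v ∈ (FI Λ g S).image (nz z) := by
    intro u hu v hv
    obtain ⟨hu1, hu2⟩ := mem_FI.1 hu
    obtain ⟨hv1, hv2⟩ := mem_FI.1 hv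
    obtain ⟨hu3, hu4⟩ := mem_FS.1 hu1
    obtain ⟨hv3, hv4⟩ := mem_FS.1 hv1
    have hq : (nz z u z - nz z v z) % 2 = 0 := by simp [nz]
    have h1 := hom_shift (hom_inf (hom_nz z hu3) (hom_nz z hv3) hq) (max (u z) (v z))
    have h2 := hom_shift (hom_sup (hom_nz z hu3) (hom_nz z hv3) hq) (min (u z) (v z))
    obtain ⟨h3, h4⟩ := h u v _ _ hu3 hv3 h1 h2 hu2 hv2
      (fun x => by simp only [Pi.inf_apply, nz]; omega)
      (fun x => by simp only [Pi.sup_apply, nz]; omega)
    refine ⟨mem_image.2 ⟨_, mem_FI.2 ⟨mem_FS.2 ⟨h1, fun x hx => ?_⟩, h3⟩, funext fun y => ?_⟩,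
      mem_image.2 ⟨_, mem_FI.2 ⟨mem_FS.2 ⟨h2, fun x hx => ?_⟩, h4⟩, funext fun y => ?_⟩⟩
    · simp only [Pi.inf_apply, nz, hu4 x hx, hv4 x hx]
      omega
    · simp only [Pi.inf_apply, nz]
      omega
    · simp only [Pi.sup_apply, nz, hu4 x hx, hv4 x hx]
      omega
    · simp only [Pi.sup_apply, nz]
      omega
  rw [← card_image_of_injOn (nz_inj z Λ g P), ← card_image_of_injOn (nz_inj z Λ g Q)]
  refine (le_card_infs_mul_card_sups _ _).trans (Nat.mul_le_mul
    ((card_le_card (t := (FI Λ g R).image (nz z)) ?_).trans card_image_le)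
    ((card_le_card (t := (FI Λ g S).image (nz z)) ?_).trans card_image_le))
  · intro c hc
    obtain ⟨u', hu', w, hw, rfl⟩ := mem_infs.1 hc
    obtain ⟨u, hu, rfl⟩ := mem_image.1 hu'
    obtain ⟨v, hv, rfl⟩ := mem_image.1 hw
    exact (key u hu v hv).1
  · intro c hc
    obtain ⟨u', hu', w, hw, rfl⟩ := mem_sups.1 hc
    obtain ⟨u, hu, rfl⟩ := mem_image.1 hu'
    obtain ⟨v, hv, rfl⟩ := mem_image.1 hw
    exact (key u hu v hv).2

/-- passing to infinite volume with four events -/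
theorem transfer4 (hμ : Gibbs μ) (hT : Triv μ) {P Q R S : Set Conf} (hP : MeasurableSet P)
    (hQ : MeasurableSet Q) (hR : MeasurableSet R) (hS : MeasurableSet S)
    (h : ∀ (Λ : Finset (ℤ × ℤ)) (g : Conf),
      (FI Λ g P).card * (FI Λ g Q).card ≤ (FI Λ g R).card * (FI Λ g S).card) :
    μ.real P * μ.real Q ≤ μ.real R * μ.real S := by
  have := hμ.1
  have hi : ∀ {A : Set Conf}, MeasurableSet A →
      ∫ f, A.indicator (fun _ => (1 : ℝ)) f ∂μ = μ.real A := fun hA => by
    rw [integral_indicator hA]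
    simp only [integral_const, smul_eq_mul, mul_one, measureReal_restrict_apply_univ]
  refine le_of_forall_pos_le_add fun η hη => ?_
  have hδ : 0 < min (η / 6) 1 := lt_min (by positivity) one_pos
  obtain ⟨m, g, hg, k⟩ := (H95.typ hμ hT ({P, Q, R, S} : Finset (Set Conf))
    (φ := fun A => A.indicator fun _ => (1 : ℝ)) (B := 1)
    (fun A hA => by
      simp only [mem_insert, mem_singleton] at hA
      rcases hA with rfl | rfl | rfl | rfl <;> exact measurable_const.indicator ‹_›)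
    (fun A _ f _ => by
      rw [abs_of_nonneg (ind_bd A f).1]
      exact (ind_bd A f).2) hδ).exists
  have k1 := abs_lt.1 (k P (by simp))
  have k2 := abs_lt.1 (k Q (by simp))
  have k3 := abs_lt.1 (k R (by simp))
  have k4 := abs_lt.1 (k S (by simp))
  rw [hi hP, av_ind] at k1
  rw [hi hQ, av_ind] at k2
  rw [hi hR, av_ind] at k3
  rw [hi hS, av_ind] at k4
  have hp := card_pos (box 0 m) hg
  have h2 : ((FI (box 0 m) g P).card : ℝ) / (FS (box 0 m) g).card *
      ((FI (box 0 m) g Q).card / (FS (box 0 m) g).card) ≤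
      (FI (box 0 m) g R).card / (FS (box 0 m) g).card *
        ((FI (box 0 m) g S).card / (FS (box 0 m) g).card) := by
    rw [div_mul_div_comm, div_mul_div_comm]
    exact div_le_div_of_nonneg_right (by exact_mod_cast h _ g) (mul_pos hp hp).le
  have b : ∀ A : Set Conf, 0 ≤ ((FI (box 0 m) g A).card : ℝ) / (FS (box 0 m) g).card ∧
      ((FI (box 0 m) g A).card : ℝ) / (FS (box 0 m) g).card ≤ 1 := fun A =>
    ⟨by positivity, (div_le_one hp).2 (by exact_mod_cast card_filter_le _ _)⟩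
  have b1 := b P
  have b2 := b Q
  have b3 := b R
  have b4 := b S
  have c : ∀ A : Set Conf, 0 ≤ μ.real A ∧ μ.real A ≤ 1 := fun A =>
    ⟨measureReal_nonneg, measureReal_le_one⟩
  have c1 := c P
  have c2 := c Q
  have c3 := c R
  have c4 := c S
  have d1 := min_le_left (η / 6) 1
  have d2 := min_le_right (η / 6) 1
  generalize min (η / 6) 1 = δ at *
  generalize ((FI (box 0 m) g P).card : ℝ) / (FS (box 0 m) g).card = p at *
  generalize ((FI (box 0 m) g Q).card : ℝ) / (FS (box 0 m) g).card = q at *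
  generalize ((FI (box 0 m) g R).card : ℝ) / (FS (box 0 m) g).card = r at *
  generalize ((FI (box 0 m) g S).card : ℝ) / (FS (box 0 m) g).card = s at *
  have e1 : μ.real P * μ.real Q ≤ (p + δ) * μ.real Q := by gcongr; linarith
  have e2 : p * μ.real Q ≤ p * (q + δ) := mul_le_mul_of_nonneg_left (by linarith) b1.1
  have e3 : r * s ≤ (μ.real R + δ) * s := mul_le_mul_of_nonneg_right (by linarith) b4.1
  have e4 : μ.real R * s ≤ μ.real R * (μ.real S + δ) :=
    mul_le_mul_of_nonneg_left (by linarith) c3.1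
  nlinarith

/-- the four events inequality for heights pinned at z -/
theorem pin4 (hμ : Gibbs μ) (hT : Triv μ) {z : ℤ × ℤ} {P Q R S : Set Conf}
    (hP : MeasurableSet P) (hQ : MeasurableSet Q) (hR : MeasurableSet R) (hS : MeasurableSet S)
    (h : Four z P Q R S) : μ.real P * μ.real Q ≤ μ.real R * μ.real S :=
  transfer4 hμ hT hP hQ hR hS (fin4 h)

/-- positive association of two events decreasing from z -/
theorem paDec (hμ : Gibbs μ) (hT : Triv μ) {z : ℤ × ℤ} {A B : Set Conf} (hA : MeasurableSet A)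
    (hB : MeasurableSet B) (dA : Dec z A) (dB : Dec z B) :
    μ.real A * μ.real B ≤ μ.real (A ∩ B) := by
  have := hμ.1
  have h := pin4 hμ hT (z := z) hA hB (hA.inter hB) MeasurableSet.univ
    fun u v r s hu hv hr _ h1 h2 h3 _ => ⟨⟨dA u r hu hr h1 fun x => (h3 x).le.trans (min_le_left _ _),
      dB v r hv hr h2 fun x => (h3 x).le.trans (min_le_right _ _)⟩, trivial⟩
  rwa [probReal_univ, mul_one] at h

/-- positive association of two events increasing from z -/
theorem paInc (hμ : Gibbs μ) (hT : Triv μ) {z : ℤ × ℤ} {A B : Set Conf} (hA : MeasurableSet A)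
    (hB : MeasurableSet B) (dA : Inc z A) (dB : Inc z B) :
    μ.real A * μ.real B ≤ μ.real (A ∩ B) := by
  have := hμ.1
  have h := pin4 hμ hT (z := z) hA hB MeasurableSet.univ (hA.inter hB)
    fun u v r s hu hv _ hs h1 h2 _ h3 => ⟨trivial,
      dA u s hu hs h1 fun x => (le_max_left _ _).trans (h3 x).ge,
      dB v s hv hs h2 fun x => (le_max_right _ _).trans (h3 x).ge⟩
  rwa [probReal_univ, one_mul] at h

theorem Inc.compl {z : ℤ × ℤ} {A : Set Conf} (h : Inc z A) : Dec z Aᶜ :=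
  fun u v hu hv h1 h2 h3 => h1 (h v u hv hu h3 h2)

theorem Dec.compl {z : ℤ × ℤ} {A : Set Conf} (h : Dec z A) : Inc z Aᶜ :=
  fun u v hu hv h1 h2 h3 => h1 (h v u hv hu h3 h2)

theorem Dec.inter {z : ℤ × ℤ} {A B : Set Conf} (h : Dec z A) (h' : Dec z B) : Dec z (A ∩ B) :=
  fun u v hu hv h1 h2 => ⟨h u v hu hv h1.1 h2, h' u v hu hv h1.2 h2⟩

theorem Inc.inter {z : ℤ × ℤ} {A B : Set Conf} (h : Inc z A) (h' : Inc z B) : Inc z (A ∩ B) :=
  fun u v hu hv h1 h2 => ⟨h u v hu hv h1.1 h2, h' u v hu hv h1.2 h2⟩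

/-- negative association of a decreasing and an increasing event -/
theorem naDI (hμ : Gibbs μ) (hT : Triv μ) {z : ℤ × ℤ} {A B : Set Conf} (hA : MeasurableSet A)
    (hB : MeasurableSet B) (dA : Dec z A) (iB : Inc z B) :
    μ.real (A ∩ B) ≤ μ.real A * μ.real B := by
  have := hμ.1
  have h1 := paDec hμ hT hA hB.compl dA iB.compl
  have h2 := measureReal_inter_add_sdiff (μ := μ) (s := A) hB
  rw [probReal_compl_eq_one_sub hB] at h1
  rw [Set.sdiff_eq] at h2
  linarith

end Pool.Agent.MP_151d89_pr.H45
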