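import Pool.Agent.MP_151d89_pr.H67E.Spec

/-!
The oscillation energy from the bound at one anchor.
-/

set_option autoImplicit false
open MeasureTheory Finset

namespace Pool.Agent.MP_151d89_pr.H45
open Pool.Agent.MP_151d89_pr.H82 Pool.Agent.MP_151d89_pr.H33 Pool.Agent.MP_151d89_pr.H67
  Pool.Agent.MP_151d89_pr.H30 Pool.Agent.MP_151d89_pr.H67E
open Pool.Agent.MP_151d89_pr.H30.RunAux (pt_pt)
open Classical

/-- Row Anc: the oscillation energy seen from one site -/
def AncStmt : Prop :=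
  ∃ C ρ : ℝ, 0 ≤ C ∧ 0 ≤ ρ ∧ ρ < 1 ∧ ∀ (μ : Measure Conf) (φ : ℤ × ℤ → ℝ) (U : Finset (ℤ × ℤ))
    (lam TV : ℝ) (A : Bool → ℤ × ℤ → ℝ), Dat μ φ U lam TV A → ∀ (N : ℕ) (b : Bool) (r : ℤ × ℤ),
      ∑ i ∈ range N, ∑ j ∈ range N,
          pp μ (b, pt b r (-i), i + j) * (φ r - ps φ (b, pt b r (-i), i + j)) ^ 2 ≤
        C * lam ^ 2 * (1 + FF μ N b r) + C * lam * ∑ k ∈ range N,
          ρ ^ k * (ww φ b (pt b r k) + ww φ b (pt b r (-k - 1)))

/-- sums over the sites of towers as sums over anchors -/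
theorem anchor (n : ℕ) (U : Finset (ℤ × ℤ)) {g : Mv → ℤ × ℤ → ℝ} (g0 : ∀ m r, 0 ≤ g m r)
    (gU : ∀ (m : Mv) (t : ℕ), t ≤ m.2.2 → g m (pt m.1 m.2.1 t) ≠ 0 → pt m.1 m.2.1 t ∈ U) :
    ∑ m ∈ TT n, ∑ t ∈ range (m.2.2 + 1), g m (pt m.1 m.2.1 t) ≤
      ∑ b : Bool, ∑ r ∈ U, ∑ i ∈ range (2 * n + 1), ∑ j ∈ range (2 * n + 1),
        g (b, pt b r (-i), i + j) r := by
  have h := sum_inj ((TT n).sigma fun m => range (m.2.2 + 1))
    ((univ : Finset Bool) ×ˢ U ×ˢ range (2 * n + 1) ×ˢ range (2 * n + 1))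
    (fun p => (p.1.1, pt p.1.1 p.1.2.1 p.2, p.2, p.1.2.2 - p.2))
    (g := fun p => g p.1 (pt p.1.1 p.1.2.1 p.2))
    (h := fun q => g (q.1, pt q.1 q.2.1 (-q.2.2.1), q.2.2.1 + q.2.2.2) q.2.1)
    (fun p hp h0 => ?_) (fun p hp q hq _ _ e => ?_) (fun p hp _ => ?_) fun _ _ => g0 _ _
  · simpa only [sum_sigma, sum_product] using h
  · obtain ⟨a1, a2⟩ := mem_sigma.1 hp
    have a3 := (mem_TT.1 a1).2
    have a4 := mem_range.1 a2
    simp only [mem_product, mem_univ, true_and, mem_range]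
    exact ⟨gU _ _ (by omega) h0, by omega, by omega⟩
  · obtain ⟨⟨b, x, l⟩, t⟩ := p
    obtain ⟨⟨b', x', l'⟩, t'⟩ := q
    have a1 := mem_range.1 (mem_sigma.1 hp).2
    have a2 := mem_range.1 (mem_sigma.1 hq).2
    simp only [Prod.mk.injEq] at e a1 a2
    obtain ⟨rfl, e2, rfl, e4⟩ := e
    obtain rfl : l = l' := by omega
    obtain rfl : x = x' := add_right_cancel e2
    rfl
  · obtain ⟨⟨b, x, l⟩, t⟩ := p
    have a1 := mem_range.1 (mem_sigma.1 hp).2
    simp only at a1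
    have e : t + (l - t) = l := by omega
    simp only [pt_pt, add_neg_cancel, pt_zero, e, le_refl]

theorem tv_shift {φ : ℤ × ℤ → ℝ} {TV : ℝ} {b : Bool}
    (h : ∀ S : Finset (ℤ × ℤ), ∑ z ∈ S, ww φ b z ≤ TV) (U : Finset (ℤ × ℤ)) (k : ℤ) :
    ∑ r ∈ U, ww φ b (pt b r k) ≤ TV := by
  have := h (U.image fun r => pt b r k)
  rwa [sum_image (g := fun r => pt b r k) fun x _ y _ e => add_right_cancel e] at this

theorem q_row (hA : AncStmt) : QStmt := by
  obtain ⟨C, ρ, hC, h0, h1, H⟩ := hA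
  have hρ : 0 < 1 - ρ := by linarith
  refine ⟨3 + 2 * C + 4 * C / (1 - ρ), by positivity, fun μ φ U lam TV A D FM hFM n => ?_⟩
  have l0 := D.lam0
  have t0 := D.tv0
  have f0 : 0 ≤ FM := by simpa [FF] using hFM 0 true
  have hL : LL μ n U ≤ 2 * FM := by
    have h := anchor n U (g := fun m r => pp μ m * ind (r ∈ U))
      (fun m _ => mul_nonneg (pp_nonneg μ m) (ind_nonneg _)) fun m t _ e => by
        by_contra e'
        exact e (by rw [ind_neg e', mul_zero])
    simp only [← mul_sum] at h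
    refine h.trans ((sum_le_sum (g := fun _ => FM) fun b _ => le_trans
      (sum_le_sum fun r hr => ?_) (hFM (2 * n + 1) b)).trans (by simp))
    simp only [ind_pos hr, mul_one, FF, le_refl]
  have hQ : QQ μ n φ ≤ 2 * (C * lam ^ 2 * (U.card + FM) + C * lam * (2 * TV / (1 - ρ))) := by
    have h := anchor n U (g := fun m r => pp μ m * (φ r - ps φ m) ^ 2)
      (fun m _ => mul_nonneg (pp_nonneg μ m) (sq_nonneg _)) fun m t ht e => by
        refine D.supp _ fun e' => e ?_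
        have a1 := ps_le φ m ht
        have a2 := ps_nonneg D.h0 m
        rw [e'] at a1 ⊢
        rw [le_antisymm a1 a2]
        simp
    simp only [← mul_sum] at h
    refine h.trans ((sum_le_sum (g := fun _ => C * lam ^ 2 * (U.card + FM) +
      C * lam * (2 * TV / (1 - ρ))) fun b _ => le_trans
      (sum_le_sum fun r _ => H μ φ U lam TV A D (2 * n + 1) b r) ?_).trans (by simp; ring_nf; rfl))
    rw [sum_add_distrib, ← mul_sum, ← mul_sum, sum_add_distrib, sum_const, nsmul_eq_mul, mul_one,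
      sum_comm]
    refine add_le_add (mul_le_mul_of_nonneg_left (by linarith [hFM (2 * n + 1) b]) (by positivity))
      (mul_le_mul_of_nonneg_left ?_ (by positivity))
    have a1 : ∀ k ∈ range (2 * n + 1), ∑ r ∈ U,
        ρ ^ k * (ww φ b (pt b r k) + ww φ b (pt b r (-k - 1))) ≤ ρ ^ k * (2 * TV) := fun k _ => by
      rw [← mul_sum, sum_add_distrib]
      exact mul_le_mul_of_nonneg_left
        (by linarith [tv_shift (D.tv b) U k, tv_shift (D.tv b) U (-k - 1)]) (by positivity)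
    refine (sum_le_sum a1).trans ?_
    rw [← sum_mul, div_eq_inv_mul]
    exact mul_le_mul_of_nonneg_right ((summable_geometric_of_lt_one h0 h1).sum_le_tsum _
      (fun _ _ => by positivity) |>.trans (tsum_geometric_of_lt_one h0 h1).le) (by positivity)
  have a1 : 0 ≤ lam * TV := mul_nonneg l0 t0
  have a2 : 0 ≤ lam ^ 2 * (U.card + FM) := by positivity
  have a3 : lam ^ 2 * (U.card + LL μ n U) ≤ 2 * (lam ^ 2 * (U.card + FM)) := by
    rw [← mul_assoc, mul_comm 2, mul_assoc]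
    exact mul_le_mul_of_nonneg_left (by linarith [U.card.cast_nonneg (α := ℝ)]) (by positivity)
  have a4 : 0 ≤ 4 * C / (1 - ρ) := by positivity
  have e : 2 * (C * lam ^ 2 * (U.card + FM) + C * lam * (2 * TV / (1 - ρ))) =
      2 * C * (lam ^ 2 * (U.card + FM)) + 4 * C / (1 - ρ) * (lam * TV) := by ring
  rw [e] at hQ
  unfold Bd
  nlinarith [mul_nonneg hC a1, mul_nonneg a4 a2]

end Pool.Agent.MP_151d89_pr.H45
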